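import Pool.Agent.NH83.VN.Geom

/-!
Convex sets of volume one contain well-shaped bodies.
-/

set_option autoImplicit false

open Finset MeasureTheory

namespace Pool.Agent.NH83.VN

variable {d : ℕ}

/-- A parallelepiped. -/
def par (z : Fin d → ℝ) (W : Matrix (Fin d) (Fin d) ℝ) (r : ℝ) : Set (Fin d → ℝ) :=
  (fun t => z + W.mulVec t) '' Set.Icc (fun _ => -r) (fun _ => r)

theorem vol_par (z : Fin d → ℝ) (W : Matrix (Fin d) (Fin d) ℝ) {r : ℝ} (hr : 0 ≤ r) :
    volume (par z W r) = ENNReal.ofReal (|W.det| * (2 * r) ^ d) := by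
  have h1 : par z W r = (fun x => z + x) '' (Matrix.toLin' W '' Set.Icc (fun _ => -r) (fun _ => r)) := by
    unfold par
    rw [Set.image_image]
    rfl
  rw [h1, Set.image_add_left, measure_preimage_add, Measure.addHaar_image_linearMap,
    LinearMap.det_toLin', Real.volume_Icc_pi, Finset.prod_const, card_univ, Fintype.card_fin,
    ENNReal.ofReal_mul (abs_nonneg _)]
  congr 1
  rw [sub_neg_eq_add, ← two_mul, ENNReal.ofReal_pow (by positivity)]

theorem mulVec_eq (W : Matrix (Fin d) (Fin d) ℝ) (t : Fin d → ℝ) :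
    W.mulVec t = ∑ j, t j • col W j := by
  funext r
  rw [Finset.sum_apply]
  unfold Matrix.mulVec col
  exact sum_congr rfl fun j _ => by rw [Pi.smul_apply, smul_eq_mul, mul_comm]

theorem par_subset (hd : 0 < d) {K : Set (Fin d → ℝ)} (hK : Convex ℝ K) {z : Fin d → ℝ}
    {W : Matrix (Fin d) (Fin d) ℝ} {c : ℝ} (hc : 0 < c) (h : ∀ j, Sym K z (c • col W j)) :
    par z W (c / d) ⊆ K := by
  have hd' : (0 : ℝ) < d := by exact_mod_cast hd
  rintro _ ⟨t, ht, rfl⟩
  have h1 : z + W.mulVec t = (1 / (d : ℝ)) • ∑ j, (z + (d * t j / c) • c • col W j) := by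
    rw [sum_add_distrib, sum_const, card_univ, Fintype.card_fin, smul_add, mulVec_eq, smul_sum,
      ← Nat.cast_smul_eq_nsmul ℝ, smul_smul, one_div_mul_cancel hd'.ne', one_smul]
    congr 1
    refine sum_congr rfl fun j _ => ?_
    rw [smul_smul, smul_smul]
    congr 1
    field_simp
  dsimp only
  rw [h1]
  apply avg_mem hd hK
  intro j
  apply (h j).smul hK
  have h2 := ht.1 j
  have h3 := ht.2 j
  dsimp only at h2 h3
  rw [abs_le]
  constructor
  · rw [le_div_iff₀ hc]
    have : -1 * c = d * (-(c / d)) := by field_simp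
    rw [this]
    exact mul_le_mul_of_nonneg_left h2 hd'.le
  · rw [div_le_one hc]
    have : c = d * (c / d) := by field_simp
    rw [this]
    refine mul_le_mul_of_nonneg_left (h3.trans (le_of_eq ?_)) hd'.le
    field_simp

/-- The average of `d + 1` points. -/
theorem avg_mem' {A : Set (Fin d → ℝ)} (hA : Convex ℝ A) {x : Fin d → ℝ} {y : Fin d → Fin d → ℝ}
    (hx : x ∈ A) (hy : ∀ i, y i ∈ A) : (1 / ((d : ℝ) + 1)) • (x + ∑ i, y i) ∈ A := by
  have h1 := hA.sum_mem (t := (univ : Finset (Option (Fin d)))) (w := fun _ => 1 / ((d : ℝ) + 1))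
    (z := fun o => o.elim x y) (fun _ _ => by positivity) (by
      rw [sum_const, card_univ, Fintype.card_option, Fintype.card_fin, nsmul_eq_mul]
      push_cast
      field_simp) (fun o _ => by
        cases o with
        | none => exact hx
        | some i => exact hy i)
  rw [Fintype.sum_option, ← smul_sum, ← smul_add] at h1
  exact h1

/-- The matrix of a simplex. -/
def smat (x : Fin d → ℝ) (y : Fin d → Fin d → ℝ) : Matrix (Fin d) (Fin d) ℝ := fun r j => y j r - x r

theorem smat_apply (x : Fin d → ℝ) (y : Fin d → Fin d → ℝ) (r j : Fin d) :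
    smat x y r j = y j r - x r := rfl

theorem sym_smat {A : Set (Fin d → ℝ)} (hA : Convex ℝ A) {x : Fin d → ℝ} {y : Fin d → Fin d → ℝ}
    (hx : x ∈ A) (hy : ∀ i, y i ∈ A) (j : Fin d) :
    Sym A ((1 / ((d : ℝ) + 1)) • (x + ∑ i, y i)) ((1 / ((d : ℝ) + 1)) • col (smat x y) j) := by
  classical
  have hcol : col (smat x y) j = y j - x := rfl
  rw [hcol]
  constructor
  · have h1 := avg_mem' hA (hy j) hy
    rw [← smul_add]
    have h2 : x + ∑ i, y i + (y j - x) = y j + ∑ i, y i := by abel
    rwa [h2]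
  · have h1 := avg_mem' hA hx (y := Function.update y j x) (fun i => by
      rcases eq_or_ne i j with rfl | hi
      · rw [Function.update_self]; exact hx
      · rw [Function.update_of_ne hi]; exact hy i)
    rw [← smul_sub]
    have h2 : x + ∑ i, y i - (y j - x) = x + ∑ i, Function.update y j x i := by
      rw [sum_update_of_mem (mem_univ j), ← add_sum_erase univ y (mem_univ j), sdiff_singleton_eq_erase]
      abel
    rwa [h2]

/-- The constant. -/
noncomputable def c0 (d : ℕ) : ℝ := (1 / (4 * ((d : ℝ) + 1))) ^ d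

theorem c0_pos (d : ℕ) : 0 < c0 d := by
  unfold c0
  positivity

theorem det_le (hd : 0 < d) {A : Set (Fin d → ℝ)} (hA : Convex ℝ A) (hv : volume A = 1)
    {x : Fin d → ℝ} {y : Fin d → Fin d → ℝ} (hx : x ∈ A) (hy : ∀ i, y i ∈ A) :
    |(smat x y).det| ≤ ((d : ℝ) * (d + 1)) ^ d := by
  have hd' : (0 : ℝ) < d := by exact_mod_cast hd
  have h1 := par_subset hd hA (c := 1 / ((d : ℝ) + 1)) (by positivity) (fun j => sym_smat hA hx hy j)
  have h2 := measure_mono (μ := volume) h1
  rw [vol_par _ _ (by positivity), hv, ← ENNReal.ofReal_one, ENNReal.ofReal_le_ofReal_iff zero_le_one] at h2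
  have h3 : (2 * (1 / ((d : ℝ) + 1) / d)) ^ d * ((d : ℝ) * (d + 1)) ^ d = 2 ^ d := by
    rw [← mul_pow]
    congr 1
    field_simp
  have h4 : (0 : ℝ) < ((d : ℝ) * (d + 1)) ^ d := by positivity
  have h5 : (1 : ℝ) ≤ 2 ^ d := one_le_pow₀ (by norm_num)
  calc |(smat x y).det| ≤ |(smat x y).det| * 2 ^ d := by
        apply le_mul_of_one_le_right (abs_nonneg _) h5
    _ = (|(smat x y).det| * (2 * (1 / ((d : ℝ) + 1) / d)) ^ d) * ((d : ℝ) * (d + 1)) ^ d := by
        rw [mul_assoc, h3]
    _ ≤ 1 * ((d : ℝ) * (d + 1)) ^ d := mul_le_mul_of_nonneg_right h2 h4.le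
    _ = _ := one_mul _

theorem exists_det_pos {A : Set (Fin d → ℝ)} (hA : Convex ℝ A) (hv : volume A = 1) :
    ∃ x ∈ A, ∃ y : Fin d → Fin d → ℝ, (∀ i, y i ∈ A) ∧ 0 < |(smat x y).det| := by
  classical
  have h1 : affineSpan ℝ A = ⊤ := by
    by_contra hc
    have h2 := Measure.addHaar_affineSubspace (volume : Measure (Fin d → ℝ)) _ hc
    have h3 := measure_mono (μ := volume) (subset_affineSpan ℝ A)
    rw [h2, hv] at h3
    exact absurd h3 (by simp)
  have h2 := hA.interior_nonempty_iff_affineSpan_eq_top.2 h1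
  obtain ⟨x, hx⟩ := h2
  rw [mem_interior_iff_mem_nhds, Metric.mem_nhds_iff] at hx
  obtain ⟨r, hr, hball⟩ := hx
  refine ⟨x, hball (Metric.mem_ball_self hr), fun i => x + Pi.single i (r / 2), fun i => ?_, ?_⟩
  · apply hball
    rw [Metric.mem_ball, dist_eq_norm, add_sub_cancel_left, Pi.norm_single, Real.norm_eq_abs,
      abs_of_pos (by linarith)]
    linarith
  · have h3 : smat x (fun i => x + Pi.single i (r / 2)) = Matrix.diagonal fun _ => r / 2 := by
      ext i j
      rw [smat_apply, Pi.add_apply, add_sub_cancel_left, Matrix.diagonal_apply, Pi.single_apply]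
    rw [h3, Matrix.det_diagonal]
    apply abs_pos.2
    apply ne_of_gt
    exact Finset.prod_pos fun _ _ => by linarith

theorem body (hd : 0 < d) {A : Set (Fin d → ℝ)} (hA : Convex ℝ A) (hv : volume A = 1) :
    ∃ (x : Fin d → ℝ) (W : Matrix (Fin d) (Fin d) ℝ), |W.det| = c0 d ∧ ∀ j, Sym A x (col W j) := by
  classical
  have hd' : (0 : ℝ) < d := by exact_mod_cast hd
  obtain ⟨D, hD⟩ : ∃ D : Set ℝ, D = {a | ∃ x ∈ A, ∃ y : Fin d → Fin d → ℝ, (∀ i, y i ∈ A) ∧
    a = |(smat x y).det|} := ⟨_, rfl⟩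
  have hbdd : BddAbove D := by
    refine ⟨((d : ℝ) * (d + 1)) ^ d, ?_⟩
    rw [hD]
    rintro a ⟨x, hx, y, hy, rfl⟩
    exact det_le hd hA hv hx hy
  obtain ⟨x0, hx0, y0, hy0, hpos⟩ := exists_det_pos hA hv
  have hmem : |(smat x0 y0).det| ∈ D := by rw [hD]; exact ⟨x0, hx0, y0, hy0, rfl⟩
  have hs : 0 < sSup D := lt_of_lt_of_le hpos (le_csSup hbdd hmem)
  obtain ⟨a, ha, has⟩ := exists_lt_of_lt_csSup ⟨_, hmem⟩ (show sSup D / 2 < sSup D by linarith)
  rw [hD] at ha
  obtain ⟨x, hx, y, hy, rfl⟩ := ha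
  have hdet0 : 0 < |(smat x y).det| := by linarith
  have hdet : (smat x y).det ≠ 0 := abs_pos.1 hdet0
  -- the parallelepiped
  have hsub : A ⊆ par x (smat x y) 2 := by
    intro z hz
    refine ⟨(smat x y)⁻¹.mulVec (z - x), ?_, ?_⟩
    · have key : ∀ i, |((smat x y)⁻¹.mulVec (z - x)) i| ≤ 2 := by
        intro i
        have h1 : (smat x y).det * ((smat x y)⁻¹.mulVec (z - x)) i =
            (smat x (Function.update y i z)).det := by
          have h2 : smat x (Function.update y i z) = (smat x y).updateCol i (z - x) := by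
            ext r j
            rw [smat_apply, Matrix.updateCol_apply]
            split_ifs with hj
            · rw [hj, Function.update_self, Pi.sub_apply]
            · rw [Function.update_of_ne hj, smat_apply]
          rw [h2, ← Matrix.cramer_apply, Matrix.cramer_eq_adjugate_mulVec, Matrix.inv_def,
            Ring.inverse_eq_inv', Matrix.smul_mulVec, Pi.smul_apply, smul_eq_mul]
          rw [mul_inv_cancel_left₀ hdet]
        have h2 : |(smat x (Function.update y i z)).det| ≤ sSup D := by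
          apply le_csSup hbdd
          rw [hD]
          refine ⟨x, hx, _, fun j => ?_, rfl⟩
          rcases eq_or_ne j i with rfl | hj
          · rw [Function.update_self]; exact hz
          · rw [Function.update_of_ne hj]; exact hy j
        rw [← h1, abs_mul] at h2
        by_contra hc
        push Not at hc
        have h3 : |(smat x y).det| * 2 < |(smat x y).det| * |((smat x y)⁻¹.mulVec (z - x)) i| :=
          mul_lt_mul_of_pos_left hc hdet0
        linarith
      exact ⟨fun i => (abs_le.1 (key i)).1, fun i => (abs_le.1 (key i)).2⟩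
    · dsimp only
      rw [Matrix.mulVec_mulVec, Matrix.mul_nonsing_inv _ (isUnit_iff_ne_zero.2 hdet), Matrix.one_mulVec]
      abel
  have h4 := measure_mono (μ := volume) hsub
  rw [vol_par _ _ (by norm_num), hv, ← ENNReal.ofReal_one,
    ENNReal.ofReal_le_ofReal_iff (by positivity)] at h4
  -- the first column is shrunk
  obtain ⟨M, hM⟩ : ∃ M : Matrix (Fin d) (Fin d) ℝ, M = (1 / ((d : ℝ) + 1)) • smat x y := ⟨_, rfl⟩
  have hMdet : |M.det| = (1 / ((d : ℝ) + 1)) ^ d * |(smat x y).det| := by
    rw [hM, Matrix.det_smul, Fintype.card_fin, abs_mul, abs_of_pos (by positivity)]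
  have hle : c0 d ≤ |M.det| := by
    rw [hMdet]
    have h5 : c0 d = (1 / ((d : ℝ) + 1)) ^ d * (1 / 4 ^ d) := by
      unfold c0
      rw [one_div_pow, mul_pow, one_div_pow, one_div_mul_one_div, mul_comm]
    rw [h5]
    apply mul_le_mul_of_nonneg_left _ (by positivity)
    rw [div_le_iff₀ (by positivity)]
    norm_num at h4
    exact h4
  have hM0 : 0 < |M.det| := lt_of_lt_of_le (c0_pos d) hle
  obtain ⟨i0⟩ : Nonempty (Fin d) := ⟨⟨0, hd⟩⟩
  refine ⟨(1 / ((d : ℝ) + 1)) • (x + ∑ i, y i), M.updateCol i0 ((c0 d / |M.det|) • col M i0), ?_, ?_⟩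
  · have h6 : (M.updateCol i0 ((c0 d / |M.det|) • col M i0)).det = (c0 d / |M.det|) * M.det := by
      rw [Matrix.det_updateCol_smul]
      congr 2
      ext r j
      rw [Matrix.updateCol_apply]
      split_ifs with hj
      · rw [hj]; rfl
      · rfl
    rw [h6, abs_mul, abs_of_pos (div_pos (c0_pos d) hM0), div_mul_cancel₀ _ hM0.ne']
  · intro j
    have h7 := sym_smat hA hx hy j
    have h8 : (1 / ((d : ℝ) + 1)) • col (smat x y) j = col M j := by rw [hM]; rfl
    rw [h8] at h7
    rcases eq_or_ne j i0 with rfl | hj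
    · have h9 : col (M.updateCol j ((c0 d / |M.det|) • col M j)) j = (c0 d / |M.det|) • col M j := by
        funext r
        unfold col
        rw [Matrix.updateCol_apply, if_pos rfl]
      rw [h9]
      apply h7.scale hA
      rw [abs_of_pos (div_pos (c0_pos d) hM0), div_le_one hM0]
      exact hle
    · have h9 : col (M.updateCol i0 ((c0 d / |M.det|) • col M i0)) j = col M j := by
        funext r
        unfold col
        rw [Matrix.updateCol_apply, if_neg hj]
      rw [h9]
      exact h7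

end Pool.Agent.NH83.VN
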