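import Mathlib

/-!
Tuples of points whose convex hull meets a flat, and Carathéodory's theorem.
-/

set_option autoImplicit false

open Finset

namespace Pool.Agent.NH83.VN

section

variable {X : Type*} (p : X → ℕ → ℝ)

/-- The weights `w` define a convex combination of the points `p (T i)`, whose first `k` coordinates
are those of `c`. -/
structure Wt (k : ℕ) (c : ℕ → ℝ) {I : Type*} [Fintype I] (T : I → X) (w : I → ℝ) : Prop where
  nonneg : ∀ i, 0 ≤ w i
  sum : ∑ i, w i = 1
  eq : ∀ j < k, ∑ i, w i * p (T i) j = c j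

/-- The convex hull of the points `p (T i)` meets the flat in which the first `k` coordinates are
those of `c`. -/
def Hit (k : ℕ) (c : ℕ → ℝ) {I : Type*} [Fintype I] (T : I → X) : Prop :=
  ∃ w : I → ℝ, Wt p k c T w

variable {p}

theorem hit_iff {k : ℕ} {c : ℕ → ℝ} {I : Type*} [Fintype I] {T : I → X} :
    Hit p k c T ↔ (fun j : Fin k => c j) ∈
      convexHull ℝ (Set.range fun i => fun j : Fin k => p (T i) j) := by
  classical
  constructor
  · rintro ⟨w, h1, h2, h3⟩
    have h4 : (fun j : Fin k => c j) = ∑ i, w i • (fun j : Fin k => p (T i) j) := by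
      funext j
      rw [Finset.sum_apply, ← h3 j j.2]
      rfl
    rw [h4]
    exact (convex_convexHull ℝ _).sum_mem (fun i _ => h1 i) h2
      (fun i _ => subset_convexHull ℝ _ ⟨i, rfl⟩)
  · intro h
    rw [convexHull_range_eq_exists_affineCombination] at h
    obtain ⟨s, w, h1, h2, h3⟩ := h
    refine ⟨fun i => if i ∈ s then w i else 0, fun i => ?_, ?_, fun j hj => ?_⟩
    · split_ifs with hi
      · exact h1 i hi
      · exact le_rfl
    · rw [← sum_filter, filter_mem_eq_inter, univ_inter]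
      exact h2
    · rw [affineCombination_eq_linear_combination _ _ _ h2] at h3
      have h4 := congrFun h3 ⟨j, hj⟩
      rw [Finset.sum_apply] at h4
      dsimp only at h4
      rw [← h4]
      simp only [ite_mul, zero_mul]
      rw [← sum_filter, filter_mem_eq_inter, univ_inter]
      rfl

theorem Hit.mono {k : ℕ} {c : ℕ → ℝ} {I J : Type*} [Fintype I] [Fintype J] {T : I → X} {T' : J → X}
    (h : Hit p k c T) (hs : ∀ i, ∃ j, T' j = T i) : Hit p k c T' := by
  rw [hit_iff] at h ⊢
  refine convexHull_mono ?_ h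
  rintro _ ⟨i, rfl⟩
  obtain ⟨j, hj⟩ := hs i
  exact ⟨j, by dsimp only; rw [hj]⟩

/-- Carathéodory's theorem. -/
theorem Hit.cara {k : ℕ} {c : ℕ → ℝ} {I : Type*} [Fintype I] {T : I → X} (h : Hit p k c T)
    (hI : k + 1 ≤ Fintype.card I) : ∃ σ : Fin (k + 1) ↪ I, Hit p k c (T ∘ σ) := by
  classical
  rw [hit_iff, convexHull_eq_union] at h
  simp only [Set.mem_iUnion] at h
  obtain ⟨t, ht, hta, hct⟩ := h
  have h1 : t.card ≤ k + 1 := by
    have h2 := hta.card_le_finrank_succ
    rw [Fintype.card_coe] at h2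
    refine h2.trans (Nat.succ_le_succ ?_)
    refine (Submodule.finrank_le _).trans ?_
    rw [Module.finrank_fin_fun]
  have h2 : ∀ x : t, ∃ i, (fun j : Fin k => p (T i) j) = x := fun x => ht x.2
  choose f hf using h2
  obtain ⟨s, hs1, hs2⟩ : ∃ s : Finset I, (∀ x, f x ∈ s) ∧ s.card = k + 1 := by
    obtain ⟨s, hs1, hs2⟩ := Finset.exists_superset_card_eq (s := (univ : Finset t).image f)
      (n := k + 1) (card_image_le.trans (by rw [card_univ, Fintype.card_coe]; exact h1)) hI
    exact ⟨s, fun x => hs1 (mem_image_of_mem _ (mem_univ _)), hs2⟩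
  obtain e : Fin (k + 1) ≃ s := (Fintype.equivFinOfCardEq (by rw [Fintype.card_coe, hs2])).symm
  refine ⟨e.toEmbedding.trans (Function.Embedding.subtype _), ?_⟩
  rw [hit_iff]
  refine convexHull_mono ?_ hct
  intro x hx
  have h3 := hf ⟨x, hx⟩
  refine ⟨e.symm ⟨f ⟨x, hx⟩, hs1 _⟩, ?_⟩
  change _ = ((⟨x, hx⟩ : t) : Fin k → ℝ)
  rw [← h3]
  funext j
  simp

/-- One of the points may be omitted. -/
theorem Hit.drop {k : ℕ} {c c' : ℕ → ℝ} (hc : ∀ j < k, c' j = c j) {T : Fin (k + 2) → X}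
    (h : Hit p (k + 1) c' T) : ∃ j : Fin (k + 2), Hit p k c (T ∘ j.succAbove) := by
  classical
  have h1 : Hit p k c T := by
    obtain ⟨w, h1, h2, h3⟩ := h
    exact ⟨w, h1, h2, fun j hj => (h3 j (by omega)).trans (hc j hj)⟩
  obtain ⟨σ, hσ⟩ := h1.cara (by rw [Fintype.card_fin]; omega)
  -- an index which is not in the image
  obtain ⟨j, hj⟩ : ∃ j : Fin (k + 2), ∀ i, σ i ≠ j := by
    by_contra hcon
    push Not at hcon
    have h2 := Fintype.card_le_of_surjective σ hcon
    rw [Fintype.card_fin, Fintype.card_fin] at h2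
    omega
  refine ⟨j, hσ.mono fun i => ?_⟩
  obtain ⟨l, hl⟩ := Fin.exists_succAbove_eq (hj i)
  exact ⟨l, by rw [Function.comp_apply, Function.comp_apply, hl]⟩

/-- Two tuples on the two sides of a hyperplane. -/
theorem Hit.pair {k : ℕ} {c : ℕ → ℝ} {I J : Type*} [Fintype I] [Fintype J] {T : I → X} {T' : J → X}
    {w : I → ℝ} {w' : J → ℝ} (h : Wt p k c T w) (h' : Wt p k c T' w') {m : ℝ}
    (hm : ∑ i, w i * p (T i) k ≤ m) (hm' : m ≤ ∑ i, w' i * p (T' i) k) :
    Hit p (k + 1) (Function.update c k m) (Sum.elim T T') := by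
  obtain ⟨a, ha0, ha1, ham⟩ : ∃ a : ℝ, 0 ≤ a ∧ a ≤ 1 ∧
      a * (∑ i, w i * p (T i) k) + (1 - a) * (∑ i, w' i * p (T' i) k) = m := by
    obtain ⟨u, hu⟩ : ∃ u : ℝ, u = ∑ i, w i * p (T i) k := ⟨_, rfl⟩
    obtain ⟨v, hv⟩ : ∃ v : ℝ, v = ∑ i, w' i * p (T' i) k := ⟨_, rfl⟩
    rw [← hu] at hm ⊢
    rw [← hv] at hm' ⊢
    rcases (hm.trans hm').eq_or_lt with he | hlt
    · refine ⟨1, zero_le_one, le_rfl, ?_⟩
      rw [one_mul, sub_self, zero_mul, add_zero]
      linarith
    · refine ⟨(v - m) / (v - u), div_nonneg (by linarith) (by linarith), ?_, ?_⟩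
      · rw [div_le_one (by linarith)]
        linarith
      · have : v - u ≠ 0 := by linarith
        field_simp
        ring
  refine ⟨Sum.elim (fun i => a * w i) (fun j => (1 - a) * w' j), ?_, ?_, ?_⟩
  · rintro (i | j)
    · exact mul_nonneg ha0 (h.nonneg i)
    · exact mul_nonneg (by linarith) (h'.nonneg j)
  · rw [Fintype.sum_sum_type]
    simp only [Sum.elim_inl, Sum.elim_inr]
    rw [← mul_sum, ← mul_sum, h.sum, h'.sum]
    ring
  · intro j hj
    rw [Fintype.sum_sum_type]
    simp only [Sum.elim_inl, Sum.elim_inr, mul_assoc]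
    rw [← mul_sum, ← mul_sum]
    rcases Nat.lt_succ_iff_lt_or_eq.1 hj with h1 | h1
    · rw [h.eq j h1, h'.eq j h1, Function.update_of_ne (by omega)]
      ring
    · subst h1
      rw [Function.update_self]
      exact ham

end

section count

variable {X : Type*} [Fintype X] [DecidableEq X] (p : X → ℕ → ℝ)

open Classical in
/-- The tuples of elements of `G` whose hull meets the flat. -/
noncomputable def Uk (k : ℕ) (c : ℕ → ℝ) (G : Finset X) : Finset (Fin (k + 1) → X) :=
  univ.filter fun T => (∀ i, T i ∈ G) ∧ Hit p k c T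

open Classical in
/-- The tuples whose hull meets the next flat, and which contain an element of `b`. -/
noncomputable def chd (k : ℕ) (c : ℕ → ℝ) (b : Finset (Fin (k + 1) → X)) :
    Finset (Fin (k + 2) → X) :=
  univ.filter fun T => Hit p (k + 1) c T ∧ ∃ j : Fin (k + 2), T ∘ j.succAbove ∈ b

omit [Fintype X] in
theorem card_ins {k : ℕ} (b : Finset (Fin (k + 1) → X)) (G : Finset X) (D : Finset (Fin (k + 2) → X))
    (hD : ∀ T ∈ D, ∃ j : Fin (k + 2), T ∘ j.succAbove ∈ b ∧ T j ∈ G) :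
    D.card ≤ (k + 2) * b.card * G.card := by
  classical
  have h1 : D ⊆ ((univ : Finset (Fin (k + 2))) ×ˢ b ×ˢ G).image fun q =>
      (Fin.insertNth q.1 q.2.2 q.2.1 : Fin (k + 2) → X) := by
    intro T hT
    obtain ⟨j, h2, h3⟩ := hD T hT
    rw [mem_image]
    refine ⟨(j, T ∘ j.succAbove, T j), ?_, ?_⟩
    · rw [mem_product, mem_product]
      exact ⟨mem_univ _, h2, h3⟩
    · exact Fin.insertNth_self_removeNth j T
  calc D.card ≤ _ := card_le_card h1
    _ ≤ ((univ : Finset (Fin (k + 2))) ×ˢ b ×ˢ G).card := card_image_le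
    _ = (k + 2) * b.card * G.card := by
        rw [card_product, card_product, card_univ, Fintype.card_fin, mul_assoc]

theorem card_chd (k : ℕ) (c : ℕ → ℝ) (b : Finset (Fin (k + 1) → X)) :
    (chd p k c b).card ≤ (k + 2) * b.card * Fintype.card X := by
  classical
  have h1 := card_ins b univ (chd p k c b) (by
    intro T hT
    unfold chd at hT
    rw [mem_filter] at hT
    obtain ⟨-, -, j, hj⟩ := hT
    exact ⟨j, hj, mem_univ _⟩)
  rwa [card_univ] at h1

theorem card_out {k : ℕ} {c c' : ℕ → ℝ} (hc : ∀ j < k, c' j = c j) (G : Finset X)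
    (b : Finset (Fin (k + 1) → X)) : (Uk p (k + 1) c' G \ chd p k c' b).card ≤
      (k + 2) * (Uk p k c G \ b).card * G.card := by
  classical
  apply card_ins
  intro T hT
  rw [mem_sdiff] at hT
  obtain ⟨h1, h2⟩ := hT
  unfold Uk at h1
  rw [mem_filter] at h1
  obtain ⟨-, h3, h4⟩ := h1
  obtain ⟨j, hj⟩ := h4.drop hc
  refine ⟨j, ?_, h3 j⟩
  rw [mem_sdiff]
  refine ⟨?_, fun h5 => h2 ?_⟩
  · unfold Uk
    exact mem_filter.2 ⟨mem_univ _, fun i => h3 _, hj⟩
  · unfold chd
    exact mem_filter.2 ⟨mem_univ _, h4, j, h5⟩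

theorem card_ext {a : ℕ} {I : Type*} [Fintype I] [DecidableEq I] (σ : Fin a ↪ I) (V : Fin a → X)
    (G : Finset X) : (univ.filter fun w : I → X => (∀ i, w i ∈ G) ∧ w ∘ σ = V).card ≤
      G.card ^ (Fintype.card I - a) := by
  classical
  have h1 : (univ.filter fun w : I → X => (∀ i, w i ∈ G) ∧ w ∘ σ = V) ⊆
      Fintype.piFinset fun i => if h : ∃ j, σ j = i then {V h.choose} else G := by
    intro w hw
    rw [mem_filter] at hw
    obtain ⟨-, h1, h2⟩ := hw
    rw [Fintype.mem_piFinset]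
    intro i
    split_ifs with h
    · rw [mem_singleton]
      have h3 := congrFun h2 h.choose
      rw [Function.comp_apply, h.choose_spec] at h3
      exact h3
    · exact h1 i
  refine (card_le_card h1).trans ?_
  rw [Fintype.card_piFinset]
  have h2 : ∀ i, (if h : ∃ j, σ j = i then ({V h.choose} : Finset X) else G).card =
      if i ∈ univ.map σ then 1 else G.card := by
    intro i
    by_cases h : ∃ j, σ j = i
    · rw [dif_pos h, if_pos (by
        rw [mem_map]
        obtain ⟨j, hj⟩ := h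
        exact ⟨j, mem_univ _, hj⟩), card_singleton]
    · rw [dif_neg h, if_neg (by
        rw [mem_map]
        rintro ⟨j, -, hj⟩
        exact h ⟨j, hj⟩)]
  simp_rw [h2]
  rw [prod_ite]
  simp only [prod_const_one, one_mul, prod_const]
  have h3 : (univ.filter fun i => ¬ i ∈ univ.map σ) = univ \ univ.map σ := by
    ext i
    simp
  rw [h3, card_sdiff_of_subset (subset_univ _), card_map, card_univ, card_univ, Fintype.card_fin]

/-- The number of pairs on the two sides of a hyperplane. -/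
theorem card_pairs {k : ℕ} {c : ℕ → ℝ} (m : ℝ) (G : Finset X)
    (L R : Finset (Fin (k + 1) → X)) (hL : ∀ T ∈ L, (∀ i, T i ∈ G) ∧
      ∃ w, Wt p k c T w ∧ ∑ i, w i * p (T i) k ≤ m)
    (hR : ∀ T ∈ R, (∀ i, T i ∈ G) ∧ ∃ w, Wt p k c T w ∧ m ≤ ∑ i, w i * p (T i) k) :
    L.card * R.card ≤ Fintype.card (Fin (k + 2) ↪ Fin (k + 1) ⊕ Fin (k + 1)) *
      (Uk p (k + 1) (Function.update c k m) G).card * G.card ^ k := by
  classical
  have h1 : ((L ×ˢ R).image fun q => (Sum.elim q.1 q.2 : Fin (k + 1) ⊕ Fin (k + 1) → X)) ⊆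
      (univ : Finset (Fin (k + 2) ↪ Fin (k + 1) ⊕ Fin (k + 1))).biUnion fun σ =>
        (Uk p (k + 1) (Function.update c k m) G).biUnion fun V =>
          univ.filter fun w : Fin (k + 1) ⊕ Fin (k + 1) → X => (∀ i, w i ∈ G) ∧ w ∘ σ = V := by
    intro w hw
    rw [mem_image] at hw
    obtain ⟨⟨T, T'⟩, hq, rfl⟩ := hw
    rw [mem_product] at hq
    obtain ⟨hT, w1, hw1, hm1⟩ := hL T hq.1
    obtain ⟨hT', w2, hw2, hm2⟩ := hR T' hq.2
    obtain ⟨σ, hσ⟩ := (Hit.pair hw1 hw2 hm1 hm2).cara (by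
      rw [Fintype.card_sum, Fintype.card_fin]
      omega)
    have hG : ∀ i, Sum.elim T T' i ∈ G := by
      rintro (i | i)
      · exact hT i
      · exact hT' i
    rw [mem_biUnion]
    refine ⟨σ, mem_univ _, ?_⟩
    rw [mem_biUnion]
    refine ⟨Sum.elim T T' ∘ σ, ?_, mem_filter.2 ⟨mem_univ _, hG, rfl⟩⟩
    unfold Uk
    exact mem_filter.2 ⟨mem_univ _, fun i => hG _, hσ⟩
  have h2 : ((L ×ˢ R).image fun q => (Sum.elim q.1 q.2 : Fin (k + 1) ⊕ Fin (k + 1) → X)).card =
      L.card * R.card := by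
    rw [card_image_of_injective, card_product]
    intro q q' h
    have h3 := fun i => congrFun h (Sum.inl i)
    have h4 := fun i => congrFun h (Sum.inr i)
    exact Prod.ext (funext h3) (funext h4)
  rw [← h2]
  refine (card_le_card h1).trans (card_biUnion_le.trans ?_)
  have h3 : ∀ σ : Fin (k + 2) ↪ Fin (k + 1) ⊕ Fin (k + 1),
      ((Uk p (k + 1) (Function.update c k m) G).biUnion fun V =>
        univ.filter fun w : Fin (k + 1) ⊕ Fin (k + 1) → X => (∀ i, w i ∈ G) ∧ w ∘ σ = V).card ≤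
      (Uk p (k + 1) (Function.update c k m) G).card * G.card ^ k := by
    intro σ
    refine card_biUnion_le.trans ?_
    refine (sum_le_sum fun V _ => card_ext σ V G).trans ?_
    rw [sum_const, smul_eq_mul, Fintype.card_sum, Fintype.card_fin]
    have : k + 1 + (k + 1) - (k + 2) = k := by omega
    rw [this]
  refine (sum_le_sum fun σ _ => h3 σ).trans ?_
  rw [sum_const, smul_eq_mul, card_univ, mul_assoc]

end count

end Pool.Agent.NH83.VN
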