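import Pool.Agent.NH83.VN.Cara

/-!
Splitting sorted families of tuples.
-/

set_option autoImplicit false

open Finset

namespace Pool.Agent.NH83.VN

/-- Either a boundary of the children of the block has many elements on both sides, or one of the
children contains nearly all of the elements; iterated. -/
theorem split {K M : ℕ} (hK : 1 ≤ K) {F : ℕ → ℝ} (hmono : Monotone F)
    (hlip : ∀ x y, x ≤ y → F y - F x ≤ (y : ℝ) - x) {A u : ℝ} (hA : 0 < A) {en th : ℕ → ℝ}
    (hth : ∀ j, 0 < th (j + 1)) (hen : ∀ j, en (j + 1) + 2 * th (j + 1) ≤ en j)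
    (hM : (M : ℝ) < u - en 0 * A) :
    ∀ j i : ℕ, u - (F ((i + 1) * (M * K ^ j)) - F (i * (M * K ^ j))) ≤ en j * A →
      ∃ j' < j, ∃ i' l : ℕ, l ≤ K ∧
        u - (F ((i' + 1) * (M * K ^ (j' + 1))) - F (i' * (M * K ^ (j' + 1)))) ≤ en (j' + 1) * A ∧
        th (j' + 1) * A ≤ F ((i' * K + l) * (M * K ^ j')) - F (i' * (M * K ^ (j' + 1))) ∧
        th (j' + 1) * A ≤ F ((i' + 1) * (M * K ^ (j' + 1))) - F ((i' * K + l) * (M * K ^ j')) := by
  intro j
  induction j with
  | zero =>
    intro i h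
    exfalso
    have h1 := hlip (i * (M * K ^ 0)) ((i + 1) * (M * K ^ 0)) (Nat.mul_le_mul_right _ (Nat.le_succ i))
    push_cast at h1
    rw [pow_zero, mul_one] at h1
    simp only [pow_zero, mul_one] at h
    linarith
  | succ j ih =>
    intro i h
    obtain ⟨H, hH⟩ : ∃ H : ℕ → ℝ, ∀ l, H l = F ((i * K + l) * (M * K ^ j)) - F (i * (M * K ^ (j + 1))) :=
      ⟨_, fun _ => rfl⟩
    have e0 : (i * K + 0) * (M * K ^ j) = i * (M * K ^ (j + 1)) := by ring
    have eK : (i * K + K) * (M * K ^ j) = (i + 1) * (M * K ^ (j + 1)) := by ring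
    have hH0 : H 0 = 0 := by rw [hH, e0, sub_self]
    have hHK : H K = F ((i + 1) * (M * K ^ (j + 1))) - F (i * (M * K ^ (j + 1))) := by rw [hH, eK]
    by_cases hex : ∃ l ≤ K, th (j + 1) * A ≤ H l ∧ th (j + 1) * A ≤ H K - H l
    · obtain ⟨l, hl, h1, h2⟩ := hex
      refine ⟨j, Nat.lt_succ_self j, i, l, hl, h, ?_, ?_⟩
      · rw [← hH]
        exact h1
      · have : H K - H l = F ((i + 1) * (M * K ^ (j + 1))) - F ((i * K + l) * (M * K ^ j)) := by
          rw [hHK, hH]
          ring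
        rw [← this]
        exact h2
    · push Not at hex
      have hthA : 0 < th (j + 1) * A := mul_pos (hth j) hA
      have hHm : Monotone H := by
        intro a b hab
        rw [hH, hH]
        have := hmono (Nat.mul_le_mul_right (M * K ^ j) (Nat.add_le_add_left hab (i * K)))
        linarith
      -- the child
      obtain ⟨l, hl, h1⟩ : ∃ l < K, H K - (H (l + 1) - H l) ≤ 2 * th (j + 1) * A := by
        have hP : ∃ l, H K - H l < th (j + 1) * A := ⟨K, by rw [sub_self]; exact hthA⟩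
        classical
        have hs := Nat.find_spec hP
        have hm := fun l => Nat.find_min hP (m := l)
        have hle : Nat.find hP ≤ K := Nat.find_min' hP (by rw [sub_self]; exact hthA)
        rcases Nat.eq_zero_or_pos (Nat.find hP) with h0 | h0
        · rw [h0, hH0] at hs
          refine ⟨0, hK, ?_⟩
          have := hHm (Nat.zero_le 1)
          linarith
        · obtain ⟨l, hl⟩ := Nat.exists_eq_succ_of_ne_zero h0.ne'
          rw [hl] at hs hle
          have h2 := hm l (by omega)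
          push Not at h2
          refine ⟨l, by omega, ?_⟩
          have h3 : H l < th (j + 1) * A := by
            by_contra hc
            push Not at hc
            have := hex l (by omega) hc
            linarith
          have h4 : H K - H (l + 1) < th (j + 1) * A := hs
          linarith
      obtain ⟨j', hj', i', l', hl', h2⟩ := ih (i * K + l) (by
        have h3 : H (l + 1) - H l = F ((i * K + l + 1) * (M * K ^ j)) - F ((i * K + l) * (M * K ^ j)) := by
          rw [hH, hH, add_assoc]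
          ring
        rw [← h3]
        have h4 := hen j
        have h5 : (en (j + 1) + 2 * th (j + 1)) * A ≤ en j * A := mul_le_mul_of_nonneg_right h4 hA.le
        rw [← hHK] at h
        linarith)
      exact ⟨j', by omega, i', l', hl', h2⟩

section blocks

variable {T : Type*} [DecidableEq T]

/-- Sorting a finite set by a real function. -/
theorem exists_pos (O : Finset T) (h : T → ℝ) : ∃ pos : T → ℕ, Set.InjOn pos O ∧
    (∀ x ∈ O, pos x < O.card) ∧ ∀ x ∈ O, ∀ y ∈ O, pos x ≤ pos y → h x ≤ h y := by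
  classical
  obtain e0 : Fin O.card ≃ O := O.equivFin.symm
  obtain ⟨f, hf⟩ : ∃ f : Fin O.card → ℝ, f = fun i => h (e0 i) := ⟨_, rfl⟩
  have hmono : Monotone (f ∘ Tuple.sort f) := Tuple.monotone_sort f
  obtain ⟨e, he⟩ : ∃ e : Fin O.card ≃ O, e = (Tuple.sort f).trans e0 := ⟨_, rfl⟩
  have hmono' : Monotone fun i => h (e i) := by
    intro a b hab
    have := hmono hab
    rw [hf] at this
    rw [he]
    rw [hf]
    exact this
  refine ⟨fun x => if hx : x ∈ O then (e.symm ⟨x, hx⟩ : ℕ) else 0, ?_, ?_, ?_⟩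
  · intro x hx y hy hxy
    have hx' : x ∈ O := hx
    have hy' : y ∈ O := hy
    dsimp only at hxy
    rw [dif_pos hx', dif_pos hy'] at hxy
    have := e.symm.injective (Fin.ext hxy)
    exact congrArg Subtype.val this
  · intro x hx
    dsimp only
    rw [dif_pos hx]
    exact (e.symm ⟨x, hx⟩).2
  · intro x hx y hy hxy
    dsimp only at hxy
    rw [dif_pos hx, dif_pos hy] at hxy
    have := hmono' (Fin.le_def.2 hxy)
    dsimp only at this
    rw [e.apply_symm_apply, e.apply_symm_apply] at this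
    exact this

/-- The elements with position in `[x, y)`. -/
def Bk (O : Finset T) (pos : T → ℕ) (x y : ℕ) : Finset T := O.filter fun a => x ≤ pos a ∧ pos a < y

variable {O : Finset T} {pos : T → ℕ}

omit [DecidableEq T] in
theorem mem_Bk {x y : ℕ} {a : T} : a ∈ Bk O pos x y ↔ a ∈ O ∧ x ≤ pos a ∧ pos a < y := by
  unfold Bk
  rw [mem_filter]

theorem card_Bk (hinj : Set.InjOn pos O) (x y : ℕ) : (Bk O pos x y).card ≤ y - x := by
  rw [← Nat.card_Ico]
  apply card_le_card_of_injOn pos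
  · intro a ha
    rw [mem_coe, mem_Bk] at ha
    rw [mem_coe, mem_Ico]
    exact ha.2
  · intro a ha b hb hab
    rw [mem_coe, mem_Bk] at ha hb
    exact hinj (mem_coe.2 ha.1) (mem_coe.2 hb.1) hab

theorem inter_Bk (U : Finset T) {x y z : ℕ} (hxy : x ≤ y) (hyz : y ≤ z) :
    (U ∩ Bk O pos x z).card = (U ∩ Bk O pos x y).card + (U ∩ Bk O pos y z).card := by
  rw [← card_union_of_disjoint]
  · congr 1
    ext a
    simp only [mem_inter, mem_union, mem_Bk]
    constructor
    · rintro ⟨h1, h2, h3, h4⟩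
      rcases lt_or_ge (pos a) y with h5 | h5
      · exact Or.inl ⟨h1, h2, h3, h5⟩
      · exact Or.inr ⟨h1, h2, h5, h4⟩
    · rintro (⟨h1, h2, h3, h4⟩ | ⟨h1, h2, h3, h4⟩)
      · exact ⟨h1, h2, h3, h4.trans_le hyz⟩
      · exact ⟨h1, h2, hxy.trans h3, h4⟩
  · rw [disjoint_left]
    intro a h1 h2
    rw [mem_inter, mem_Bk] at h1 h2
    omega

theorem sum_Bk (M' N : ℕ) : ∑ i ∈ range N, (Bk O pos (i * M') ((i + 1) * M')).card ≤ O.card := by
  rw [← card_biUnion]
  · apply card_le_card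
    intro a ha
    rw [mem_biUnion] at ha
    obtain ⟨i, -, hi⟩ := ha
    exact (mem_Bk.1 hi).1
  · intro i _ j _ hij
    change Disjoint _ _
    rw [disjoint_left]
    intro a h1 h2
    rw [mem_Bk] at h1 h2
    apply hij
    have h3 : i < j + 1 := by
      by_contra hc
      push Not at hc
      have := Nat.mul_le_mul_right M' hc
      omega
    have h4 : j < i + 1 := by
      by_contra hc
      push Not at hc
      have := Nat.mul_le_mul_right M' hc
      omega
    omega

omit [DecidableEq T] in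
/-- The threshold. -/
theorem exists_thr {h : T → ℝ} (hpos : ∀ x ∈ O, ∀ y ∈ O, pos x ≤ pos y → h x ≤ h y) (s : ℕ) :
    ∃ m : ℝ, ∀ x ∈ O, ∀ y ∈ O, pos x < s → s ≤ pos y → h x ≤ m ∧ m ≤ h y := by
  classical
  by_cases hne : (O.filter fun y => s ≤ pos y).Nonempty
  · refine ⟨(O.filter fun y => s ≤ pos y).inf' hne h, fun x hx y hy hxs hsy => ⟨?_, ?_⟩⟩
    · rw [le_inf'_iff]
      intro z hz
      rw [mem_filter] at hz
      exact hpos x hx z hz.1 (by omega)
    · exact inf'_le _ (mem_filter.2 ⟨hy, hsy⟩)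
  · refine ⟨0, fun x _ y hy _ hsy => ?_⟩
    exact absurd ⟨y, mem_filter.2 ⟨hy, hsy⟩⟩ hne

/-- The splitting lemma for a set `U` most of whose elements are in `O`. -/
theorem split_fam {K J : ℕ} (hK : 1 ≤ K) (hinj : Set.InjOn pos O) (hlt : ∀ x ∈ O, pos x < O.card)
    (U : Finset T) {A : ℝ} (hA : 0 < A) {en th : ℕ → ℝ} (hth : ∀ j, 0 < th (j + 1))
    (hen : ∀ j, en (j + 1) + 2 * th (j + 1) ≤ en j)
    (hM : ((O.card / K ^ J + 1 : ℕ) : ℝ) < U.card - en 0 * A)
    (hU : ((U \ O).card : ℝ) ≤ en J * A) :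
    ∃ j < J, ∃ i < O.card, ∃ l ≤ K,
      ((U \ Bk O pos (i * ((O.card / K ^ J + 1) * K ^ (j + 1)))
        ((i + 1) * ((O.card / K ^ J + 1) * K ^ (j + 1)))).card : ℝ) ≤ en (j + 1) * A ∧
      th (j + 1) * A ≤ (U ∩ Bk O pos (i * ((O.card / K ^ J + 1) * K ^ (j + 1)))
        ((i * K + l) * ((O.card / K ^ J + 1) * K ^ j))).card ∧
      th (j + 1) * A ≤ (U ∩ Bk O pos ((i * K + l) * ((O.card / K ^ J + 1) * K ^ j))
        ((i + 1) * ((O.card / K ^ J + 1) * K ^ (j + 1)))).card := by
  obtain ⟨M, hMM⟩ : ∃ M : ℕ, M = O.card / K ^ J + 1 := ⟨_, rfl⟩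
  rw [← hMM] at hM ⊢
  obtain ⟨F, hF⟩ : ∃ F : ℕ → ℝ, ∀ x, F x = (U ∩ Bk O pos 0 x).card := ⟨_, fun _ => rfl⟩
  have hdiff : ∀ x y, x ≤ y → F y - F x = (U ∩ Bk O pos x y).card := by
    intro x y hxy
    rw [hF, hF, inter_Bk U (Nat.zero_le x) hxy]
    push_cast
    ring
  have hmono : Monotone F := by
    intro x y hxy
    have := hdiff x y hxy
    have h2 : (0 : ℝ) ≤ (U ∩ Bk O pos x y).card := Nat.cast_nonneg _
    linarith
  have hlip : ∀ x y, x ≤ y → F y - F x ≤ (y : ℝ) - x := by
    intro x y hxy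
    rw [hdiff x y hxy, ← Nat.cast_sub hxy]
    exact_mod_cast (card_le_card inter_subset_right).trans (card_Bk hinj x y)
  have hKJ : 0 < K ^ J := Nat.pow_pos hK
  have hNM : O.card ≤ M * K ^ J := by
    rw [hMM, mul_comm]
    exact (Nat.lt_mul_div_succ _ hKJ).le
  have hall : Bk O pos (0 * (M * K ^ J)) ((0 + 1) * (M * K ^ J)) = O := by
    ext a
    rw [mem_Bk]
    constructor
    · exact fun h => h.1
    · intro ha
      have := hlt a ha
      exact ⟨ha, by omega, by omega⟩
  have hsd : ∀ B : Finset T, ((U \ B).card : ℝ) = U.card - (U ∩ B).card := by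
    intro B
    have := card_sdiff_add_card_inter U B
    have h2 : ((U \ B).card : ℝ) + (U ∩ B).card = U.card := by exact_mod_cast this
    linarith
  obtain ⟨j, hj, i, l, hl, h1, h2, h3⟩ := split hK hmono hlip (u := U.card) hA hth hen hM J 0 (by
    rw [hdiff _ _ (Nat.mul_le_mul_right _ (Nat.le_succ 0)), hall, ← hsd]
    exact hU)
  have e1 : i * (M * K ^ (j + 1)) ≤ (i + 1) * (M * K ^ (j + 1)) :=
    Nat.mul_le_mul_right _ (Nat.le_succ i)
  have e2 : i * (M * K ^ (j + 1)) ≤ (i * K + l) * (M * K ^ j) := by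
    calc i * (M * K ^ (j + 1)) = (i * K + 0) * (M * K ^ j) := by ring
      _ ≤ _ := Nat.mul_le_mul_right _ (by omega)
  have e3 : (i * K + l) * (M * K ^ j) ≤ (i + 1) * (M * K ^ (j + 1)) := by
    calc (i * K + l) * (M * K ^ j) ≤ (i * K + K) * (M * K ^ j) := Nat.mul_le_mul_right _ (by omega)
      _ = _ := by ring
  rw [hdiff _ _ e1, ← hsd] at h1
  rw [hdiff _ _ e2] at h2
  rw [hdiff _ _ e3] at h3
  refine ⟨j, hj, i, ?_, l, hl, h1, h2, h3⟩
  -- the index is not too large
  by_contra hc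
  push Not at hc
  have h4 : (0 : ℝ) < (U ∩ Bk O pos (i * (M * K ^ (j + 1))) ((i * K + l) * (M * K ^ j))).card :=
    lt_of_lt_of_le (mul_pos (hth j) hA) h2
  have h5 : 0 < (U ∩ Bk O pos (i * (M * K ^ (j + 1))) ((i * K + l) * (M * K ^ j))).card := by
    exact_mod_cast h4
  obtain ⟨a, ha⟩ := card_pos.1 h5
  rw [mem_inter, mem_Bk] at ha
  have h6 := hlt a ha.2.1
  have h7 : 1 ≤ M * K ^ (j + 1) := by
    have : 0 < M * K ^ (j + 1) := by
      apply Nat.mul_pos
      · rw [hMM]; exact Nat.succ_pos _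
      · exact Nat.pow_pos hK
    omega
  have h8 : i * 1 ≤ i * (M * K ^ (j + 1)) := Nat.mul_le_mul_left _ h7
  omega

end blocks

end Pool.Agent.NH83.VN
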