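import Pool.Agent.NH83.VN.VC
import Pool.Agent.NH83.VN.Split

/-!
Bodies in convex hulls.
-/

set_option autoImplicit false

open Finset

namespace Pool.Agent.NH83.VN

section sym

variable {d : ℕ} {K : Set (Fin d → ℝ)}

/-- The points `x + v` and `x - v` are in `K`. -/
def Sym (K : Set (Fin d → ℝ)) (x v : Fin d → ℝ) : Prop := x + v ∈ K ∧ x - v ∈ K

theorem Sym.smul (hK : Convex ℝ K) {x v : Fin d → ℝ} (h : Sym K x v) {t : ℝ} (ht : |t| ≤ 1) :
    x + t • v ∈ K := by
  rw [abs_le] at ht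
  have h1 := hK h.1 h.2 (a := (1 + t) / 2) (b := (1 - t) / 2) (by linarith) (by linarith) (by ring)
  have h2 : ((1 + t) / 2) • (x + v) + ((1 - t) / 2) • (x - v) = x + t • v := by
    funext r
    simp only [Pi.add_apply, Pi.smul_apply, Pi.sub_apply, smul_eq_mul]
    ring
  rwa [h2] at h1

theorem Sym.scale (hK : Convex ℝ K) {x v : Fin d → ℝ} (h : Sym K x v) {t : ℝ} (ht : |t| ≤ 1) :
    Sym K x (t • v) := by
  refine ⟨h.smul hK ht, ?_⟩
  have h1 := h.smul hK (t := -t) (by rwa [abs_neg])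
  rw [neg_smul, ← sub_eq_add_neg] at h1
  exact h1

theorem Sym.mem (hK : Convex ℝ K) {x v : Fin d → ℝ} (h : Sym K x v) : x ∈ K := by
  have h1 := h.smul hK (t := 0) (by rw [abs_zero]; exact zero_le_one)
  rwa [zero_smul, add_zero] at h1

theorem Sym.comb (hK : Convex ℝ K) {x y v : Fin d → ℝ} (h : Sym K x v) (hy : y ∈ K) {a b : ℝ}
    (ha : 1 / 2 ≤ a) (hb : 0 ≤ b) (hab : a + b = 1) :
    Sym K (a • x + b • y) ((1 / 2 : ℝ) • v) := by
  have h1 : Sym K (a • x + b • y) (a • v) := by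
    constructor
    · have h2 := hK h.1 hy (a := a) (b := b) (by linarith) hb hab
      have h3 : a • (x + v) + b • y = a • x + b • y + a • v := by
        rw [smul_add]; abel
      rwa [h3] at h2
    · have h2 := hK h.2 hy (a := a) (b := b) (by linarith) hb hab
      have h3 : a • (x - v) + b • y = a • x + b • y - a • v := by
        rw [smul_sub]; abel
      rwa [h3] at h2
  have h2 := h1.scale hK (t := 1 / (2 * a)) (by
    have : 0 < 2 * a := by linarith
    rw [abs_of_nonneg (by positivity), div_le_one this]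
    linarith)
  have ha' : a ≠ 0 := by linarith
  have h3 : (1 / (2 * a)) • a • v = (1 / 2 : ℝ) • v := by
    rw [smul_smul]
    congr 1
    field_simp
  rwa [h3] at h2

end sym

section hull

variable {d : ℕ} {X : Type*} (P : X → Fin d → ℝ) (W : X → Matrix (Fin d) (Fin d) ℝ)

/-- The column of a matrix. -/
def col (M : Matrix (Fin d) (Fin d) ℝ) (j : Fin d) : Fin d → ℝ := fun r => M r j

/-- The convex hull of the bodies with index in `G`. -/
def HG (G : Finset X) : Set (Fin d → ℝ) :=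
  convexHull ℝ {x | ∃ i ∈ G, ∃ j, x = P i + col (W i) j ∨ x = P i - col (W i) j}

theorem HG_convex (G : Finset X) : Convex ℝ (HG P W G) := convex_convexHull ℝ _

variable {P W}

theorem sym_HG {G : Finset X} {i : X} (hi : i ∈ G) (j : Fin d) :
    Sym (HG P W G) (P i) (col (W i) j) :=
  ⟨subset_convexHull ℝ _ ⟨i, hi, j, Or.inl rfl⟩, subset_convexHull ℝ _ ⟨i, hi, j, Or.inr rfl⟩⟩

theorem P_mem (hd : 0 < d) {G : Finset X} {i : X} (hi : i ∈ G) : P i ∈ HG P W G :=
  (sym_HG hi ⟨0, hd⟩).mem (HG_convex P W G)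

variable (P)

/-- The coordinates, indexed by the natural numbers. -/
noncomputable def ext (i : X) (j : ℕ) : ℝ := if h : j < d then P i ⟨j, h⟩ else 0

theorem ext_apply (i : X) (j : Fin d) : ext P i j = P i j := by
  unfold ext
  rw [dif_pos j.2]

/-- The location of a tuple. -/
noncomputable def loc {I : Type*} [Fintype I] (T : I → X) (w : I → ℝ) : Fin d → ℝ :=
  fun r => ∑ i, w i * P (T i) r

variable {P}

theorem loc_eq {I : Type*} [Fintype I] (T : I → X) (w : I → ℝ) : loc P T w = ∑ i, w i • P (T i) := by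
  funext r
  rw [Finset.sum_apply]
  rfl

theorem loc_mem (hd : 0 < d) {G : Finset X} {I : Type*} [Fintype I] {T : I → X}
    (hT : ∀ i, T i ∈ G) {w : I → ℝ} (h0 : ∀ i, 0 ≤ w i) (h1 : ∑ i, w i = 1) :
    loc P T w ∈ HG P W G := by
  rw [loc_eq]
  exact (HG_convex P W G).sum_mem (fun i _ => h0 i) h1 fun i _ => P_mem hd (hT i)

theorem loc_sym (hd : 0 < d) {G : Finset X} {I : Type*} [Fintype I] [DecidableEq I] {T : I → X}
    (hT : ∀ i, T i ∈ G) {w : I → ℝ} (h0 : ∀ i, 0 ≤ w i) (h1 : ∑ i, w i = 1) {i0 : I}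
    (hi : 1 / (d : ℝ) ≤ w i0) (j : Fin d) :
    Sym (HG P W G) (loc P T w) ((1 / (d : ℝ)) • col (W (T i0)) j) := by
  have hd' : (0 : ℝ) < d := by exact_mod_cast hd
  have hw : 0 < w i0 := lt_of_lt_of_le (by positivity) hi
  have hs : ∀ e : ℝ, |e| = 1 → loc P T w + (e * w i0) • col (W (T i0)) j ∈ HG P W G := by
    intro e he
    have h2 : loc P T w + (e * w i0) • col (W (T i0)) j =
        ∑ i, w i • (P (T i) + if i = i0 then e • col (W (T i0)) j else 0) := by
      simp only [smul_add]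
      rw [sum_add_distrib, ← loc_eq]
      congr 1
      rw [sum_eq_single i0 (fun i _ hi => by rw [if_neg hi, smul_zero])
        (fun h => absurd (mem_univ _) h), if_pos rfl, smul_smul, mul_comm]
    rw [h2]
    refine (HG_convex P W G).sum_mem (fun i _ => h0 i) h1 fun i _ => ?_
    split_ifs with hii
    · subst hii
      exact (sym_HG (hT i) j).smul (HG_convex P W G) he.le
    · rw [add_zero]
      exact P_mem hd (hT i)
  have h2 : Sym (HG P W G) (loc P T w) (w i0 • col (W (T i0)) j) := by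
    constructor
    · have := hs 1 abs_one
      rwa [one_mul] at this
    · have := hs (-1) (by rw [abs_neg, abs_one])
      rwa [neg_one_mul, neg_smul, ← sub_eq_add_neg] at this
  have h3 := h2.scale (HG_convex P W G) (t := 1 / (d : ℝ) / w i0) (by
    rw [abs_of_nonneg (by positivity), div_le_one hw]
    exact hi)
  have h4 : (1 / (d : ℝ) / w i0) • w i0 • col (W (T i0)) j = (1 / (d : ℝ)) • col (W (T i0)) j := by
    rw [smul_smul]
    congr 1
    field_simp
  rwa [h4] at h3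

/-- A large weight. -/
theorem exists_large {k : ℕ} {w : Fin (k + 1) → ℝ} (h1 : ∑ i, w i = 1) :
    ∃ i, 1 / ((k + 1 : ℕ) : ℝ) ≤ w i := by
  by_contra hc
  push Not at hc
  have h2 : ∑ i, w i < ∑ _i : Fin (k + 1), 1 / ((k + 1 : ℕ) : ℝ) :=
    sum_lt_sum_of_nonempty ⟨0, mem_univ _⟩ fun i _ => hc i
  rw [sum_const, card_univ, Fintype.card_fin, nsmul_eq_mul, mul_one_div_cancel
    (by exact_mod_cast (Nat.succ_ne_zero k)), h1] at h2
  exact lt_irrefl _ h2

/-- The point on the segment between two locations. -/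
theorem between {k : ℕ} (hk : k + 1 = d) {G : Finset X} {c : ℕ → ℝ} {m : ℝ}
    {T T' : Fin (k + 1) → X} (hT : ∀ i, T i ∈ G) (hT' : ∀ i, T' i ∈ G) {w w' : Fin (k + 1) → ℝ}
    (h : Wt (ext P) k c T w) (h' : Wt (ext P) k c T' w') {i0 : Fin (k + 1)}
    (hi : 1 / ((k + 1 : ℕ) : ℝ) ≤ w i0)
    (hm : 0 ≤ (m - ∑ i, w i * ext P (T i) k) * (∑ i, w' i * ext P (T' i) k - m))
    (hle : |m - ∑ i, w i * ext P (T i) k| ≤ |∑ i, w' i * ext P (T' i) k - m|)
    {z : Fin d → ℝ} (hz : ∀ j : Fin d, z j = Function.update c k m j) (j : Fin d) :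
    Sym (HG P W G) z ((1 / 2 : ℝ) • (1 / (d : ℝ)) • col (W (T i0)) j) := by
  classical
  subst hk
  have hd : 0 < k + 1 := Nat.succ_pos k
  have hy : loc P T' w' ∈ HG P W G := loc_mem (P := P) (W := W) hd hT' h'.nonneg h'.sum
  have hx := loc_sym (P := P) (W := W) hd hT h.nonneg h.sum hi j
  obtain ⟨u, hu⟩ : ∃ u : ℝ, u = m - ∑ i, w i * ext P (T i) k := ⟨_, rfl⟩
  obtain ⟨v, hv⟩ : ∃ v : ℝ, v = ∑ i, w' i * ext P (T' i) k - m := ⟨_, rfl⟩
  rw [← hu, ← hv] at hm hle
  -- the weights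
  obtain ⟨a, b, ha, hb, hab, hz0⟩ : ∃ a b : ℝ, 1 / 2 ≤ a ∧ 0 ≤ b ∧ a + b = 1 ∧ b * v = a * u := by
    by_cases hv0 : v = 0
    · have hu0 : u = 0 := by
        rw [hv0, abs_zero] at hle
        exact abs_eq_zero.1 (le_antisymm hle (abs_nonneg _))
      exact ⟨1, 0, by norm_num, le_rfl, by norm_num, by rw [hu0, hv0]; ring⟩
    · have hv2 : 0 < |v| := abs_pos.2 hv0
      have hsum : 0 < |u| + |v| := by have := abs_nonneg u; linarith
      refine ⟨|v| / (|u| + |v|), |u| / (|u| + |v|), ?_, by positivity, ?_, ?_⟩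
      · rw [div_le_div_iff₀ (by norm_num) hsum]
        linarith
      · rw [← add_div, add_comm, div_self hsum.ne']
      · have h3 : |u| * v = |v| * u := by
          rcases le_total 0 v with h4 | h4
          · have hu4 : 0 ≤ u := by
              by_contra hc
              push Not at hc
              have h5 : 0 < v := lt_of_le_of_ne h4 (Ne.symm hv0)
              nlinarith
            rw [abs_of_nonneg h4, abs_of_nonneg hu4, mul_comm]
          · have hu4 : u ≤ 0 := by
              by_contra hc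
              push Not at hc
              have h5 : v < 0 := lt_of_le_of_ne h4 hv0
              nlinarith
            rw [abs_of_nonpos h4, abs_of_nonpos hu4]
            ring
        rw [div_mul_eq_mul_div, div_mul_eq_mul_div, h3]
  have hzeq : z = a • loc P T w + b • loc P T' w' := by
    funext r
    rw [hz, Pi.add_apply, Pi.smul_apply, Pi.smul_apply, smul_eq_mul, smul_eq_mul]
    have hl : ∀ (T : Fin (k + 1) → X) (w : Fin (k + 1) → ℝ), loc P T w r = ∑ i, w i * ext P (T i) r := by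
      intro T w
      unfold loc
      exact sum_congr rfl fun i _ => by rw [ext_apply]
    rw [hl, hl]
    rcases Nat.lt_succ_iff_lt_or_eq.1 r.2 with h1 | h1
    · rw [Function.update_of_ne (by omega), h.eq r h1, h'.eq r h1, ← add_mul, hab, one_mul]
    · rw [h1, Function.update_self]
      have e1 : ∑ i, w i * ext P (T i) k = m - u := by rw [hu]; ring
      have e2 : ∑ i, w' i * ext P (T' i) k = m + v := by rw [hv]; ring
      rw [e1, e2]
      have : a * (m - u) + b * (m + v) = (a + b) * m + (b * v - a * u) := by ring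
      rw [this, hab, hz0]
      ring
  rw [hzeq]
  exact hx.comb (HG_convex P W G) hy ha hb hab

/-- One of the two sides. -/
theorem side {k : ℕ} (hk : k + 1 = d) {G : Finset X} {c : ℕ → ℝ} {m : ℝ}
    {w : (Fin (k + 1) → X) → Fin (k + 1) → ℝ} {L R : Finset (Fin (k + 1) → X)}
    (hL : ∀ T ∈ L, (∀ i, T i ∈ G) ∧ Wt (ext P) k c T (w T) ∧ ∑ i, w T i * ext P (T i) k ≤ m)
    (hR : ∀ T ∈ R, (∀ i, T i ∈ G) ∧ Wt (ext P) k c T (w T) ∧ m ≤ ∑ i, w T i * ext P (T i) k)
    (hLn : L.Nonempty) (hRn : R.Nonempty) {bi : (Fin (k + 1) → X) → Fin (k + 1)}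
    (hbL : ∀ T ∈ L, 1 / ((k + 1 : ℕ) : ℝ) ≤ w T (bi T))
    (hbR : ∀ T ∈ R, 1 / ((k + 1 : ℕ) : ℝ) ≤ w T (bi T))
    {z : Fin d → ℝ} (hz : ∀ j : Fin d, z j = Function.update c k m j) :
    (∀ T ∈ L, ∀ j, Sym (HG P W G) z ((1 / 2 : ℝ) • (1 / (d : ℝ)) • col (W (T (bi T))) j)) ∨
    (∀ T ∈ R, ∀ j, Sym (HG P W G) z ((1 / 2 : ℝ) • (1 / (d : ℝ)) • col (W (T (bi T))) j)) := by
  obtain ⟨TL, hTL, hTL'⟩ := L.exists_max_image (fun T => m - ∑ i, w T i * ext P (T i) k) hLn
  obtain ⟨TR, hTR, hTR'⟩ := R.exists_max_image (fun T => ∑ i, w T i * ext P (T i) k - m) hRn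
  have hL1 := (hL TL hTL).2.2
  have hR1 := (hR TR hTR).2.2
  rcases le_total (m - ∑ i, w TL i * ext P (TL i) k) (∑ i, w TR i * ext P (TR i) k - m) with h | h
  · left
    intro T hT j
    have h1 := (hL T hT).2.2
    have h2 := hTL' T hT
    refine between hk (hL T hT).1 (hR TR hTR).1 (hL T hT).2.1 (hR TR hTR).2.1 (hbL T hT) ?_ ?_ hz j
    · exact mul_nonneg (by linarith) (by linarith)
    · rw [abs_of_nonneg (by linarith), abs_of_nonneg (by linarith)]
      linarith
  · right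
    intro T hT j
    have h1 := (hR T hT).2.2
    have h2 := hTR' T hT
    refine between hk (hR T hT).1 (hL TL hTL).1 (hR T hT).2.1 (hL TL hTL).2.1 (hbR T hT) ?_ ?_ hz j
    · exact mul_nonneg_of_nonpos_of_nonpos (by linarith) (by linarith)
    · rw [abs_of_nonpos (by linarith), abs_of_nonpos (by linarith)]
      linarith

end hull

section net

variable {d : ℕ} {X : Type*} [DecidableEq X] {P : X → Fin d → ℝ} {W : X → Matrix (Fin d) (Fin d) ℝ}

/-- The net at a point. -/
theorem net_at (hd : 0 < d) (hW : ∀ i, (W i).det ≠ 0) {Y : Type*} [Fintype Y] [DecidableEq Y]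
    (bi : Y → X) (hN : 0 < Fintype.card Y) (m : ℕ) {δ : ℝ} (hδ : 0 < δ)
    (hm : ((2 * m * d + 1 : ℕ) : ℝ) ^ (2 * d ^ 2) * (2 : ℝ) ^ (-(δ * m / 2)) < δ / 2)
    (z : Fin d → ℝ) : ∃ A : Finset ((Fin d → ℝ) × X), A.card ≤ m ∧
      ∀ (G : Finset X) (S : Finset Y), δ * Fintype.card Y ≤ S.card →
        (∀ s ∈ S, ∀ j, Sym (HG P W G) z ((1 / 2 : ℝ) • (1 / (d : ℝ)) • col (W (bi s)) j)) →
        ∃ a ∈ A, ∀ j, Sym (HG P W G) a.1 ((1 / (2 * (d : ℝ) ^ 2)) • col (W a.2) j) := by
  classical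
  obtain ⟨A, hA1, hA2⟩ := centred_net hd (fun y => W (bi y)) (fun y => hW _) hN m hδ hm
  refine ⟨A.image fun a => (z, bi a), card_image_le.trans hA1, fun G S hS hsym => ?_⟩
  obtain ⟨a, ha, h1⟩ := hA2 S hS
  refine ⟨(z, bi a), mem_image_of_mem _ ha, fun j => ?_⟩
  have hd' : (0 : ℝ) < d := by exact_mod_cast hd
  have key : ∀ x ∈ convexHull ℝ (pts (fun y => W (bi y)) S),
      z + ((1 / 2 : ℝ) * (1 / (d : ℝ))) • x ∈ HG P W G := by
    intro x hx
    have h2 : convexHull ℝ (pts (fun y => W (bi y)) S) ⊆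
        {x | z + ((1 / 2 : ℝ) * (1 / (d : ℝ))) • x ∈ HG P W G} := by
      apply convexHull_min
      · rintro x ⟨s, hs, j, rfl | rfl⟩
        · have h3 := (hsym s hs j).1
          rw [smul_smul] at h3
          exact h3
        · have h3 := (hsym s hs j).2
          rw [smul_smul, sub_eq_add_neg, ← smul_neg] at h3
          exact h3
      · intro x hx y hy a b ha hb hab
        have h3 := HG_convex P W G hx hy ha hb hab
        have h4 : a • (z + ((1 / 2 : ℝ) * (1 / (d : ℝ))) • x) + b • (z + ((1 / 2 : ℝ) * (1 / (d : ℝ))) • y) =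
            z + ((1 / 2 : ℝ) * (1 / (d : ℝ))) • (a • x + b • y) := by
          have : z = a • z + b • z := by rw [← add_smul, hab, one_smul]
          conv_rhs => rw [this]
          rw [smul_add, smul_add, smul_add, smul_comm a, smul_comm b]
          abel
        rw [h4] at h3
        exact h3
    exact h2 hx
  have e1 : ((1 / 2 : ℝ) * (1 / (d : ℝ))) • (1 / (d : ℝ)) • (fun r => W (bi a) r j) =
      (1 / (2 * (d : ℝ) ^ 2)) • col (W (bi a)) j := by
    rw [smul_smul]
    have : (1 / 2 : ℝ) * (1 / (d : ℝ)) * (1 / (d : ℝ)) = 1 / (2 * (d : ℝ) ^ 2) := by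
      field_simp
    rw [this]
    rfl
  have h3 := key _ (h1 j).1
  have h4 := key _ (h1 j).2
  rw [e1] at h3
  rw [smul_neg, e1, ← sub_eq_add_neg] at h4
  exact ⟨h3, h4⟩

end net

end Pool.Agent.NH83.VN
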