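import Mathlib

/-!
The epsilon-net theorem of Haussler and Welzl (existence, with a slightly weaker constant).
-/

set_option autoImplicit false

open Finset

namespace Pool.Agent.NH83.VN

section

variable {Y : Type*} [Fintype Y] [DecidableEq Y]

theorem card_coord {m : ℕ} (R : Finset Y) (i : Fin m) :
    (Fintype.card Y : ℝ) * ((univ.filter fun b : Fin m → Y => b i ∈ R).card : ℝ) =
      (R.card : ℝ) * (Fintype.card Y : ℝ) ^ m := by
  classical
  have h1 : (univ.filter fun b : Fin m → Y => b i ∈ R) =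
      Fintype.piFinset (Function.update (fun _ : Fin m => (univ : Finset Y)) i R) := by
    ext b
    simp only [mem_filter, mem_univ, true_and, Fintype.mem_piFinset]
    constructor
    · intro h j
      by_cases hj : j = i
      · subst hj
        rw [Function.update_self]
        exact h
      · rw [Function.update_of_ne hj]
        exact mem_univ _
    · intro h
      have := h i
      rwa [Function.update_self] at this
  rw [h1, Fintype.card_piFinset]
  have h2 : (∏ j, (Function.update (fun _ : Fin m => (univ : Finset Y)) i R j).card) =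
      R.card * ∏ j ∈ univ \ {i}, Fintype.card Y := by
    have h3 : ∀ j, (Function.update (fun _ : Fin m => (univ : Finset Y)) i R j).card =
        Function.update (fun _ : Fin m => Fintype.card Y) i R.card j := by
      intro j
      by_cases hj : j = i
      · subst hj
        rw [Function.update_self, Function.update_self]
      · rw [Function.update_of_ne hj, Function.update_of_ne hj]
        rfl
    simp_rw [h3]
    exact Finset.prod_update_of_mem (mem_univ i) _ _
  rw [h2]
  have h4 : (Fintype.card Y : ℝ) ^ m = ∏ _j : Fin m, (Fintype.card Y : ℝ) := by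
    rw [prod_const, card_univ, Fintype.card_fin]
  rw [h4, ← Finset.mul_prod_erase univ _ (mem_univ i), ← Finset.sdiff_singleton_eq_erase]
  push_cast
  ring

/-- A set with proportion at least `δ` contains at least `δ m / 2` of the entries of at least
the proportion `δ / 2` of all sequences. -/
theorem avg {m : ℕ} {δ : ℝ} (hδ : 0 < δ) {R : Finset Y} (hR : δ * Fintype.card Y ≤ R.card)
    (hN : 0 < Fintype.card Y) :
    δ / 2 * (Fintype.card Y : ℝ) ^ m ≤ ((univ.filter fun b : Fin m → Y =>
      δ * m / 2 ≤ ((univ.filter fun i => b i ∈ R).card : ℝ)).card : ℝ) := by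
  classical
  have hNr : (0 : ℝ) < Fintype.card Y := by exact_mod_cast hN
  rcases Nat.eq_zero_or_pos m with rfl | hm
  · have h1 : (univ.filter fun b : Fin 0 → Y =>
      δ * (0 : ℕ) / 2 ≤ ((univ.filter fun i => b i ∈ R).card : ℝ)) = univ := by
      apply filter_true_of_mem
      intro b _
      have : (0 : ℝ) ≤ ((univ.filter fun i => b i ∈ R).card : ℝ) := Nat.cast_nonneg _
      simp
    rw [h1, card_univ, Fintype.card_fun, Fintype.card_fin, pow_zero, pow_zero, mul_one,
      Nat.cast_one]
    have h2 : (R.card : ℝ) ≤ Fintype.card Y := by exact_mod_cast card_le_univ R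
    have h3 : δ * Fintype.card Y ≤ 1 * Fintype.card Y := by rw [one_mul]; linarith
    have h4 := le_of_mul_le_mul_right h3 hNr
    linarith
  have hmr : (0 : ℝ) < m := by exact_mod_cast hm
  obtain ⟨B, hB⟩ : ∃ B : Finset (Fin m → Y), B = univ.filter fun b : Fin m → Y =>
    δ * m / 2 ≤ ((univ.filter fun i => b i ∈ R).card : ℝ) := ⟨_, rfl⟩
  rw [← hB]
  -- the sum over all sequences of the number of entries in `R`
  have h1 : ∑ b : Fin m → Y, ((univ.filter fun i => b i ∈ R).card : ℝ) =
      ∑ i : Fin m, ((univ.filter fun b : Fin m → Y => b i ∈ R).card : ℝ) := by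
    simp_rw [card_filter]
    push_cast
    exact sum_comm
  have h2 : (Fintype.card Y : ℝ) * ∑ b : Fin m → Y, ((univ.filter fun i => b i ∈ R).card : ℝ) =
      m * ((R.card : ℝ) * (Fintype.card Y : ℝ) ^ m) := by
    rw [h1, mul_sum]
    simp_rw [card_coord]
    rw [sum_const, card_univ, Fintype.card_fin, nsmul_eq_mul]
  have h3 : ∑ b : Fin m → Y, ((univ.filter fun i => b i ∈ R).card : ℝ) ≤
      ∑ b : Fin m → Y, (δ * m / 2 + if b ∈ B then (m : ℝ) else 0) := by
    apply sum_le_sum
    intro b _
    by_cases hb : b ∈ B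
    · rw [if_pos hb]
      have h4 : ((univ.filter fun i => b i ∈ R).card : ℝ) ≤ m := by
        have h5 := card_le_univ (univ.filter fun i => b i ∈ R)
        rw [Fintype.card_fin] at h5
        exact_mod_cast h5
      have h6 : (0 : ℝ) ≤ δ * m / 2 := by positivity
      linarith
    · rw [if_neg hb, add_zero]
      rw [hB, mem_filter] at hb
      push Not at hb
      exact (hb (mem_univ _)).le
  rw [sum_add_distrib, sum_const, card_univ, Fintype.card_fun, Fintype.card_fin,
    nsmul_eq_mul, ← sum_filter, sum_const, nsmul_eq_mul, Finset.filter_mem_eq_inter,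
    univ_inter] at h3
  push_cast at h3
  have h4 : m * ((δ * Fintype.card Y) * (Fintype.card Y : ℝ) ^ m) ≤
      (Fintype.card Y : ℝ) * ((Fintype.card Y : ℝ) ^ m * (δ * m / 2) + B.card * m) := by
    calc m * ((δ * Fintype.card Y) * (Fintype.card Y : ℝ) ^ m) ≤
        m * ((R.card : ℝ) * (Fintype.card Y : ℝ) ^ m) := by
          apply mul_le_mul_of_nonneg_left _ hmr.le
          apply mul_le_mul_of_nonneg_right hR (by positivity)
      _ = (Fintype.card Y : ℝ) * ∑ b : Fin m → Y, ((univ.filter fun i => b i ∈ R).card : ℝ) :=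
          h2.symm
      _ ≤ _ := mul_le_mul_of_nonneg_left h3 hNr.le
  have h5 : (Fintype.card Y * m : ℝ) * (δ / 2 * (Fintype.card Y : ℝ) ^ m) ≤
      (Fintype.card Y * m : ℝ) * B.card := by
    linarith
  exact le_of_mul_le_mul_left h5 (by positivity)

/-- The traces of the sets in `𝓡` on a family of points. -/
noncomputable def traces {I : Type*} [Fintype I] [DecidableEq I] (𝓡 : Set (Finset Y)) (u : I → Y) :
    Set (Finset I) :=
  {τ | ∃ R ∈ 𝓡, τ = univ.filter fun i => u i ∈ R}

/-- The choice of the order in the pairs is good for the trace `τ`. -/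
def Val {m : ℕ} (δ : ℝ) (τ : Finset (Fin m ⊕ Fin m)) (σ : Fin m → Bool) : Prop :=
  (∀ i, (if σ i then Sum.inr i else Sum.inl i : Fin m ⊕ Fin m) ∉ τ) ∧
    δ * m / 2 ≤ ((univ.filter fun i =>
      (if σ i then Sum.inl i else Sum.inr i : Fin m ⊕ Fin m) ∈ τ).card : ℝ)

open Classical in
theorem card_val {m : ℕ} (δ : ℝ) (τ : Finset (Fin m ⊕ Fin m)) :
    ((univ.filter fun σ : Fin m → Bool => Val δ τ σ).card : ℝ) ≤
      (2 : ℝ) ^ m * (2 : ℝ) ^ (-(δ * m / 2)) := by
  by_cases hex : ∃ σ : Fin m → Bool, Val δ τ σ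
  · obtain ⟨σ0, h0⟩ := hex
    obtain ⟨I, hI⟩ : ∃ I : Finset (Fin m), I = univ.filter fun i => Sum.inl i ∈ τ ∨ Sum.inr i ∈ τ :=
      ⟨_, rfl⟩
    have hsub : (univ.filter fun σ : Fin m → Bool => Val δ τ σ) ⊆
        Fintype.piFinset fun i => if i ∈ I then {σ0 i} else univ := by
      intro σ hσ
      rw [mem_filter] at hσ
      obtain ⟨-, h1, -⟩ := hσ
      rw [Fintype.mem_piFinset]
      intro i
      by_cases hi : i ∈ I
      · rw [if_pos hi, mem_singleton]
        rw [hI, mem_filter] at hi
        have h2 := h1 i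
        have h3 := h0.1 i
        rcases hi.2 with h4 | h4
        · have e1 : σ i = true := by
            by_contra hc
            rw [if_neg hc] at h2
            exact h2 h4
          have e2 : σ0 i = true := by
            by_contra hc
            rw [if_neg hc] at h3
            exact h3 h4
          rw [e1, e2]
        · have e1 : ¬ σ i = true := by
            intro hc
            rw [if_pos hc] at h2
            exact h2 h4
          have e2 : ¬ σ0 i = true := by
            intro hc
            rw [if_pos hc] at h3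
            exact h3 h4
          rw [Bool.not_eq_true] at e1 e2
          rw [e1, e2]
      · rw [if_neg hi]
        exact mem_univ _
    have h1 := card_le_card hsub
    rw [Fintype.card_piFinset] at h1
    have h2 : (∏ i : Fin m, (if i ∈ I then ({σ0 i} : Finset Bool) else univ).card) =
        2 ^ (m - I.card) := by
      have h3 : ∀ i : Fin m, (if i ∈ I then ({σ0 i} : Finset Bool) else univ).card =
          if i ∈ I then 1 else 2 := by
        intro i
        split_ifs <;> simp
      simp_rw [h3]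
      rw [prod_ite]
      simp only [prod_const_one, one_mul, prod_const]
      congr 1
      have h4 : (univ.filter fun i => ¬ i ∈ I) = univ \ I := by
        ext i
        simp
      rw [h4, card_sdiff_of_subset (subset_univ _), card_univ, Fintype.card_fin]
    rw [h2] at h1
    have hIm : I.card ≤ m := by
      have := card_le_univ I
      rwa [Fintype.card_fin] at this
    have hI2 : δ * m / 2 ≤ (I.card : ℝ) := by
      refine h0.2.trans ?_
      have : (univ.filter fun i => (if σ0 i then Sum.inl i else Sum.inr i : Fin m ⊕ Fin m) ∈ τ) ⊆ I := by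
        intro i hi
        rw [mem_filter] at hi
        rw [hI, mem_filter]
        refine ⟨mem_univ _, ?_⟩
        by_cases hc : σ0 i = true
        · left
          have := hi.2
          rwa [if_pos hc] at this
        · right
          have := hi.2
          rwa [if_neg hc] at this
      exact_mod_cast card_le_card this
    calc ((univ.filter fun σ : Fin m → Bool => Val δ τ σ).card : ℝ) ≤ ((2 ^ (m - I.card) : ℕ) : ℝ) := by
          exact_mod_cast h1
      _ = (2 : ℝ) ^ m * (2 : ℝ) ^ (-(I.card : ℝ)) := by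
          rw [← Real.rpow_natCast, ← Real.rpow_add (by norm_num)]
          push_cast
          rw [← Real.rpow_natCast, Nat.cast_sub hIm]
          congr 1
      _ ≤ _ := by
          apply mul_le_mul_of_nonneg_left _ (by positivity)
          apply Real.rpow_le_rpow_of_exponent_le (by norm_num)
          linarith
  · push Not at hex
    rw [filter_false_of_mem (fun σ _ => hex σ), card_empty, Nat.cast_zero]
    positivity

/-- The exchange of the entries of the pairs. -/
def swp {m : ℕ} (σ : Fin m → Bool) (ab : (Fin m → Y) × (Fin m → Y)) :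
    (Fin m → Y) × (Fin m → Y) :=
  (fun i => if σ i then ab.2 i else ab.1 i, fun i => if σ i then ab.1 i else ab.2 i)

omit [Fintype Y] [DecidableEq Y] in
theorem swp_swp {m : ℕ} (σ : Fin m → Bool) (ab : (Fin m → Y) × (Fin m → Y)) :
    swp σ (swp σ ab) = ab := by
  unfold swp
  ext i
  · by_cases h : σ i = true <;> simp [h]
  · by_cases h : σ i = true <;> simp [h]

/-- There are a set of the family which is missed by the first sequence, and contains many entries
of the second one. -/
def Ev {m : ℕ} (𝓡 : Set (Finset Y)) (δ : ℝ) (ab : (Fin m → Y) × (Fin m → Y)) : Prop :=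
  ∃ R ∈ 𝓡, (∀ i, ab.1 i ∉ R) ∧ δ * m / 2 ≤ ((univ.filter fun i => ab.2 i ∈ R).card : ℝ)

omit [Fintype Y] in
theorem ev_swp {m : ℕ} {𝓡 : Set (Finset Y)} {δ : ℝ} {ab : (Fin m → Y) × (Fin m → Y)}
    {σ : Fin m → Bool} (h : Ev 𝓡 δ (swp σ ab)) :
    ∃ τ ∈ traces 𝓡 (Sum.elim ab.1 ab.2), Val δ τ σ := by
  classical
  obtain ⟨R, hR, h1, h2⟩ := h
  refine ⟨univ.filter fun i => Sum.elim ab.1 ab.2 i ∈ R, ⟨R, hR, rfl⟩, fun i => ?_, ?_⟩
  · rw [mem_filter]
    rintro ⟨-, h3⟩
    apply h1 i
    unfold swp
    dsimp only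
    by_cases hc : σ i = true
    · rw [if_pos hc] at h3 ⊢
      exact h3
    · rw [if_neg hc] at h3 ⊢
      exact h3
  · refine h2.trans ?_
    apply Nat.cast_le.2
    apply card_le_card
    intro i hi
    rw [mem_filter] at hi ⊢
    refine ⟨mem_univ _, ?_⟩
    rw [mem_filter]
    refine ⟨mem_univ _, ?_⟩
    have h3 := hi.2
    unfold swp at h3
    dsimp only at h3
    by_cases hc : σ i = true
    · rw [if_pos hc] at h3 ⊢
      exact h3
    · rw [if_neg hc] at h3 ⊢
      exact h3

/-- **The epsilon-net theorem.** -/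
theorem eps_net (𝓡 : Set (Finset Y)) (m : ℕ) {δ Φ : ℝ} (hδ : 0 < δ)
    (hN : 0 < Fintype.card Y)
    (hΦ : ∀ u : Fin m ⊕ Fin m → Y, ((traces 𝓡 u).ncard : ℝ) ≤ Φ)
    (hm : Φ * (2 : ℝ) ^ (-(δ * m / 2)) < δ / 2) :
    ∃ a : Fin m → Y, ∀ R ∈ 𝓡, δ * Fintype.card Y ≤ R.card → ∃ i, a i ∈ R := by
  classical
  by_contra hcon
  push Not at hcon
  choose R hR1 hR2 hR3 using hcon
  have hNr : (0 : ℝ) < Fintype.card Y := by exact_mod_cast hN
  obtain ⟨N, hNN⟩ : ∃ N : ℝ, N = Fintype.card Y := ⟨_, rfl⟩
  rw [← hNN] at hNr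
  obtain ⟨T, hT⟩ : ∃ T : ℝ, T = ∑ ab : (Fin m → Y) × (Fin m → Y), if Ev 𝓡 δ ab then (1 : ℝ) else 0 :=
    ⟨_, rfl⟩
  -- lower bound
  have hlow : N ^ m * (δ / 2 * N ^ m) ≤ T := by
    rw [hT, Fintype.sum_prod_type]
    have h1 : ∀ a : Fin m → Y, δ / 2 * N ^ m ≤ ∑ b : Fin m → Y, if Ev 𝓡 δ (a, b) then (1 : ℝ) else 0 := by
      intro a
      have h2 := avg (m := m) hδ (hR2 a) hN
      rw [← hNN] at h2
      refine h2.trans ?_
      rw [← sum_filter, sum_const, nsmul_eq_mul, mul_one]
      apply Nat.cast_le.2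
      apply card_le_card
      intro b hb
      rw [mem_filter] at hb ⊢
      exact ⟨mem_univ _, R a, hR1 a, hR3 a, hb.2⟩
    calc N ^ m * (δ / 2 * N ^ m) = ∑ _a : Fin m → Y, δ / 2 * N ^ m := by
          rw [sum_const, card_univ, Fintype.card_fun, Fintype.card_fin, nsmul_eq_mul, hNN]
          push_cast
          ring
      _ ≤ _ := sum_le_sum fun a _ => h1 a
  -- upper bound
  have hup : (2 : ℝ) ^ m * T ≤ N ^ m * N ^ m * (Φ * ((2 : ℝ) ^ m * (2 : ℝ) ^ (-(δ * m / 2)))) := by
    have h1 : ∀ σ : Fin m → Bool, T = ∑ ab : (Fin m → Y) × (Fin m → Y),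
        if Ev 𝓡 δ (swp σ ab) then (1 : ℝ) else 0 := by
      intro σ
      rw [hT]
      exact (Equiv.sum_comp (⟨swp σ, swp σ, swp_swp σ, swp_swp σ⟩ :
        ((Fin m → Y) × (Fin m → Y)) ≃ ((Fin m → Y) × (Fin m → Y)))
        (fun ab => if Ev 𝓡 δ ab then (1 : ℝ) else 0)).symm
    have h2 : (2 : ℝ) ^ m * T = ∑ σ : Fin m → Bool, ∑ ab : (Fin m → Y) × (Fin m → Y),
        if Ev 𝓡 δ (swp σ ab) then (1 : ℝ) else 0 := by
      rw [← sum_congr rfl fun σ _ => h1 σ, sum_const, card_univ, Fintype.card_fun,
        Fintype.card_fin, Fintype.card_bool, nsmul_eq_mul]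
      push_cast
      rfl
    rw [h2, sum_comm]
    have h3 : ∀ ab : (Fin m → Y) × (Fin m → Y), ∑ σ : Fin m → Bool,
        (if Ev 𝓡 δ (swp σ ab) then (1 : ℝ) else 0) ≤
        Φ * ((2 : ℝ) ^ m * (2 : ℝ) ^ (-(δ * m / 2))) := by
      intro ab
      rw [← sum_filter, sum_const, nsmul_eq_mul, mul_one]
      have hfin : (traces 𝓡 (Sum.elim ab.1 ab.2)).Finite := Set.toFinite _
      have h4 : (univ.filter fun σ : Fin m → Bool => Ev 𝓡 δ (swp σ ab)) ⊆
          hfin.toFinset.biUnion fun τ => univ.filter fun σ : Fin m → Bool => Val δ τ σ := by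
        intro σ hσ
        rw [mem_filter] at hσ
        obtain ⟨τ, h5, h6⟩ := ev_swp hσ.2
        rw [mem_biUnion]
        exact ⟨τ, hfin.mem_toFinset.2 h5, mem_filter.2 ⟨mem_univ _, h6⟩⟩
      have h5 : ((univ.filter fun σ : Fin m → Bool => Ev 𝓡 δ (swp σ ab)).card : ℝ) ≤
          ∑ τ ∈ hfin.toFinset, ((univ.filter fun σ : Fin m → Bool => Val δ τ σ).card : ℝ) := by
        have := (card_le_card h4).trans card_biUnion_le
        exact_mod_cast this
      refine h5.trans ((sum_le_sum fun τ _ => card_val δ τ).trans ?_)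
      rw [sum_const, nsmul_eq_mul, ← Set.ncard_eq_toFinset_card _ hfin]
      exact mul_le_mul_of_nonneg_right (hΦ _) (by positivity)
    refine (sum_le_sum fun ab _ => h3 ab).trans ?_
    rw [sum_const, card_univ, Fintype.card_prod, Fintype.card_fun, Fintype.card_fin, nsmul_eq_mul,
      hNN]
    push_cast
    exact le_rfl
  have h2m : (0 : ℝ) < 2 ^ m := by positivity
  have hNm : (0 : ℝ) < N ^ m := by positivity
  have h5 : (2 : ℝ) ^ m * (N ^ m * (δ / 2 * N ^ m)) ≤
      N ^ m * N ^ m * (Φ * ((2 : ℝ) ^ m * (2 : ℝ) ^ (-(δ * m / 2)))) :=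
    (mul_le_mul_of_nonneg_left hlow h2m.le).trans hup
  have h6 : N ^ m * N ^ m * (2 : ℝ) ^ m * (Φ * (2 : ℝ) ^ (-(δ * m / 2))) <
      N ^ m * N ^ m * (2 : ℝ) ^ m * (δ / 2) := mul_lt_mul_of_pos_left hm (by positivity)
  nlinarith [h5, h6]

end

end Pool.Agent.NH83.VN
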