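import Pool.Agent.NH83.VN.Step
import Pool.Agent.NH83.VN.Body

/-!
Volumetric weak nets.
-/

set_option autoImplicit false

open Finset MeasureTheory

namespace Pool.Agent.NH83.VN

variable {d : ℕ}

theorem measurable_par (z : Fin d → ℝ) (W : Matrix (Fin d) (Fin d) ℝ) (r : ℝ) :
    MeasurableSet (par z W r) := by
  unfold par
  have h1 : Continuous fun t : Fin d → ℝ => z + W.mulVec t :=
    continuous_const.add (Continuous.matrix_mulVec continuous_const continuous_id)
  exact (isCompact_Icc.image h1).measurableSet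

/-- The hull of the bodies is in the hull of the family. -/
theorem HG_sub {X ι : Type*} {P : X → Fin d → ℝ} {W : X → Matrix (Fin d) (Fin d) ℝ} {G : Finset X}
    {F : ι → Set (Fin d → ℝ)} {G₀ : Finset ι} {f : X → ι} (hf : ∀ i ∈ G, f i ∈ G₀)
    (h : ∀ i j, Sym (F (f i)) (P i) (col (W i) j)) :
    HG P W G ⊆ convexHull ℝ (⋃ i ∈ G₀, F i) := by
  apply convexHull_mono
  rintro x ⟨i, hi, j, rfl | rfl⟩
  · exact Set.mem_biUnion (hf i hi) (h i j).1
  · exact Set.mem_biUnion (hf i hi) (h i j).2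

theorem main (hd : 1 ≤ d) {α : ℝ} (hα : d < α) : ∃ v C : ℝ, 0 < v ∧ 0 ≤ C ∧ ∀ ε : ℝ, 0 < ε → ε ≤ 1 →
    ∀ (ι : Type) [Fintype ι] [Nonempty ι] (F : ι → Set (Fin d → ℝ)),
      (∀ i, Convex ℝ (F i) ∧ volume (F i) = 1) → ∃ S : Finset (Set (Fin d → ℝ)),
        (S.card : ℝ) ≤ C * ε ^ (-α) ∧ (∀ s ∈ S, MeasurableSet s ∧ volume s = ENNReal.ofReal v) ∧
        ∀ G : Finset ι, ε * Fintype.card ι ≤ G.card → ∃ s ∈ S, s ⊆ convexHull ℝ (⋃ i ∈ G, F i) := by
  classical
  have hd0 : 0 < d := hd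
  have hd' : (0 : ℝ) < d := by exact_mod_cast hd0
  obtain ⟨t, ht⟩ : ∃ t : ℝ, t = (α - d) / (2 * d) := ⟨_, rfl⟩
  have ht0 : 0 < t := by rw [ht]; exact div_pos (by linarith) (by positivity)
  obtain ⟨J, hJ⟩ := exists_nat_ge (2 * (d : ℝ) ^ 2 / (α - d))
  have hαd : 0 < α - d := by linarith
  have hJ0 : (0 : ℝ) < J := lt_of_lt_of_le (by positivity) hJ
  have hJ1 : 1 ≤ J := by exact_mod_cast hJ0
  have hexp : (d : ℝ) / J * d + (d + d * t) ≤ α := by
    have h1 : (d : ℝ) * t = (α - d) / 2 := by rw [ht]; field_simp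
    have h2 : (d : ℝ) / J * d ≤ (α - d) / 2 := by
      rw [div_mul_eq_mul_div, div_le_iff₀ hJ0]
      rw [div_le_iff₀ hαd] at hJ
      nlinarith
    linarith
  obtain ⟨δ, Λ, Q, hδ, hΛ, hQ, H⟩ := PP_all (d := d) (J := J) ht0 (d - 1) 0 (by omega) 1 one_pos
  obtain ⟨q, hq⟩ : ∃ q : ℝ, q = max Q 1 := ⟨_, rfl⟩
  have hq1 : 1 ≤ q := by rw [hq]; exact le_max_right _ _
  have hqQ : Q ≤ q := by rw [hq]; exact le_max_left _ _
  have hq0 : 0 < q := by linarith
  refine ⟨c0 d * (2 * (1 / (2 * (d : ℝ) ^ 2) / d)) ^ d, Λ * (2 * q) ^ d, ?_, by positivity, ?_⟩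
  · have := c0_pos d
    positivity
  intro ε hε hε1 ι _ _ F hF
  have hbody := fun i => body hd0 (hF i).1 (hF i).2
  choose x W hW hsym using hbody
  have hn : 0 < Fintype.card ι := Fintype.card_pos
  have hn' : (0 : ℝ) < Fintype.card ι := by exact_mod_cast hn
  obtain ⟨m, hm⟩ := exists_nat_ge ((q + 1) / (ε * Fintype.card ι))
  rw [div_le_iff₀ (by positivity)] at hm
  have hm0 : (0 : ℝ) < m := by
    by_contra hc
    have : (m : ℝ) = 0 := le_antisymm (not_lt.1 hc) (Nat.cast_nonneg _)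
    rw [this, zero_mul] at hm
    linarith
  obtain ⟨g, hg⟩ : ∃ g : ℕ, g = ⌈ε * (Fintype.card ι * m)⌉₊ := ⟨_, rfl⟩
  have hge : ε * (Fintype.card ι * m) ≤ g := by rw [hg]; exact Nat.le_ceil _
  have hqg : q + 1 ≤ g := by
    refine hm.trans (le_trans (le_of_eq ?_) hge)
    ring
  have hg1 : 1 ≤ g := by
    have : (1 : ℝ) ≤ g := by linarith
    exact_mod_cast this
  have hg0 : (0 : ℝ) < g := by exact_mod_cast hg1
  have hcX : Fintype.card (ι × Fin m) = Fintype.card ι * m := by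
    rw [Fintype.card_prod, Fintype.card_fin]
  have hgX : g ≤ Fintype.card (ι × Fin m) := by
    rw [hcX, hg]
    apply Nat.ceil_le.2
    push_cast
    exact mul_le_of_le_one_left (by positivity) hε1
  -- the ratio
  obtain ⟨R, hR⟩ : ∃ R : ℝ, R = (Fintype.card (ι × Fin m) : ℝ) / g := ⟨_, rfl⟩
  have hR1 : 1 ≤ R := by
    rw [hR, le_div_iff₀ hg0, one_mul]
    exact_mod_cast hgX
  have hRε : R ≤ ε⁻¹ := by
    rw [hR, div_le_iff₀ hg0, hcX, inv_mul_eq_div, le_div_iff₀ hε]
    push_cast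
    linarith
  have hε' : 1 ≤ ε⁻¹ := (one_le_inv₀ hε).2 hε1
  obtain ⟨E, hE⟩ : ∃ E : ℝ, E = (ε⁻¹) ^ ((d : ℝ) / J) := ⟨_, rfl⟩
  have hE1 : 1 ≤ E := by rw [hE]; exact Real.one_le_rpow hε' (by positivity)
  obtain ⟨K, hK⟩ : ∃ K : ℕ, K = ⌈q * E⌉₊ := ⟨_, rfl⟩
  have hKE : q * E ≤ K := by rw [hK]; exact Nat.le_ceil _
  have hqE : 1 ≤ q * E := by nlinarith
  have hK1 : 1 ≤ K := by
    have : (1 : ℝ) ≤ K := by linarith
    exact_mod_cast this
  have hK2 : (K : ℝ) ≤ 2 * q * E := by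
    have h1 : (K : ℝ) < q * E + 1 := by rw [hK]; exact Nat.ceil_lt_add_one (by linarith)
    linarith
  have hKJ : Q * R ^ d ≤ (K : ℝ) ^ J := by
    calc Q * R ^ d ≤ q * (ε⁻¹) ^ d := by
          apply mul_le_mul hqQ (pow_le_pow_left₀ (by linarith) hRε d) (by positivity) hq0.le
      _ = q * E ^ J := by
          rw [hE, ← Real.rpow_natCast, ← Real.rpow_natCast, ← Real.rpow_mul (by positivity),
            div_mul_cancel₀ _ hJ0.ne']
      _ ≤ q ^ J * E ^ J := by
          apply mul_le_mul_of_nonneg_right _ (by positivity)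
          calc q = q ^ 1 := (pow_one q).symm
            _ ≤ q ^ J := pow_le_pow_right₀ hq1 hJ1
      _ = (q * E) ^ J := (mul_pow _ _ _).symm
      _ ≤ _ := pow_le_pow_left₀ (by linarith) hKE J
  obtain ⟨S, hS1, hS2⟩ := H (ι × Fin m) (fun y => x y.1) (fun y => W y.1)
    (fun y h => by
      have h1 := hW y.1
      rw [h, abs_zero] at h1
      exact absurd h1 (c0_pos d).ne) g K hK1 hg1 hgX (by linarith) (by rw [← hR]; exact hKJ) 0 univ
    (fun T _ => ⟨fun _ => 1, fun _ => zero_le_one, by simp, fun j hj => absurd hj (Nat.not_lt_zero j)⟩)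
  refine ⟨S.image fun s => par s.1 (W s.2.1) (1 / (2 * (d : ℝ) ^ 2) / d), ?_, ?_, ?_⟩
  · have h1 : ((univ : Finset (Fin (0 + 1) → ι × Fin m)).card : ℝ) / (g : ℝ) ^ (0 + 1) = R := by
      rw [card_univ, Fintype.card_fun, Fintype.card_fin, zero_add, pow_one, pow_one, hR]
    rw [h1, ← hR] at hS1
    have h2 : ((S.image fun s => par s.1 (W s.2.1) (1 / (2 * (d : ℝ) ^ 2) / d)).card : ℝ) ≤ S.card := by
      exact_mod_cast card_image_le
    refine h2.trans (hS1.trans ?_)
    rw [Nat.sub_zero, Nat.sub_zero]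
    have h3 : R ^ (d - 1) * R = R ^ d := by
      rw [← pow_succ]
      congr 1
      omega
    have h4 : Λ * (K : ℝ) ^ d * R ^ (d - 1) * R ^ ((d : ℝ) * t) * R =
        Λ * (K : ℝ) ^ d * (R ^ d * R ^ ((d : ℝ) * t)) := by
      rw [← h3]
      ring
    rw [h4]
    have h5 : R ^ d * R ^ ((d : ℝ) * t) ≤ (ε⁻¹) ^ ((d : ℝ) + d * t) := by
      rw [← Real.rpow_natCast R d, ← Real.rpow_add (by linarith)]
      exact Real.rpow_le_rpow (by linarith) hRε (by positivity)
    have h6 : (K : ℝ) ^ d ≤ (2 * q) ^ d * (ε⁻¹) ^ ((d : ℝ) / J * d) := by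
      have h7 : E ^ d = (ε⁻¹) ^ ((d : ℝ) / J * d) := by
        rw [hE, ← Real.rpow_natCast, ← Real.rpow_mul (by positivity)]
      rw [← h7, ← mul_pow]
      exact pow_le_pow_left₀ (by positivity) hK2 d
    calc Λ * (K : ℝ) ^ d * (R ^ d * R ^ ((d : ℝ) * t))
        ≤ Λ * ((2 * q) ^ d * (ε⁻¹) ^ ((d : ℝ) / J * d)) * (ε⁻¹) ^ ((d : ℝ) + d * t) := by
          have h8 : 0 ≤ R ^ d * R ^ ((d : ℝ) * t) := by positivity
          apply mul_le_mul (mul_le_mul_of_nonneg_left h6 hΛ) h5 h8 (by positivity)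
      _ = Λ * (2 * q) ^ d * (ε⁻¹) ^ ((d : ℝ) / J * d + (d + d * t)) := by
          rw [Real.rpow_add (show (0 : ℝ) < ε⁻¹ by positivity) ((d : ℝ) / J * d) ((d : ℝ) + d * t)]
          ring
      _ ≤ Λ * (2 * q) ^ d * (ε⁻¹) ^ α := by
          apply mul_le_mul_of_nonneg_left _ (by positivity)
          exact Real.rpow_le_rpow_of_exponent_le hε' hexp
      _ = _ := by rw [Real.inv_rpow hε.le, Real.rpow_neg hε.le]
  · intro s hs
    rw [mem_image] at hs
    obtain ⟨a, -, rfl⟩ := hs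
    refine ⟨measurable_par _ _ _, ?_⟩
    rw [vol_par _ _ (by positivity), hW]
  · intro G hG
    -- the subset of the right size
    have hGm : g ≤ (G ×ˢ (univ : Finset (Fin m))).card := by
      rw [card_product, card_univ, Fintype.card_fin, hg]
      apply Nat.ceil_le.2
      push_cast
      rw [← mul_assoc]
      exact mul_le_mul_of_nonneg_right hG hm0.le
    obtain ⟨G', hG', hG'c⟩ := exists_subset_card_eq hGm
    have hU : Uk (ext fun y : ι × Fin m => x y.1) 0 0 G' = Fintype.piFinset fun _ : Fin (0 + 1) => G' := by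
      ext T
      unfold Uk
      rw [mem_filter, Fintype.mem_piFinset]
      constructor
      · exact fun h => h.2.1
      · intro h
        exact ⟨mem_univ _, h, fun _ => 1, fun _ => zero_le_one, by simp,
          fun j hj => absurd hj (Nat.not_lt_zero j)⟩
    obtain ⟨s, hs, hs'⟩ := hS2 G' hG'c (by
      rw [hU, Fintype.card_piFinset, prod_const, card_univ, Fintype.card_fin, hG'c, one_mul]
      push_cast
      exact le_rfl) (by
      rw [sdiff_eq_empty_iff_subset.2 (subset_univ _), card_empty, Nat.cast_zero]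
      positivity)
    refine ⟨_, mem_image_of_mem _ hs, ?_⟩
    refine (par_subset hd0 (HG_convex _ _ _) (by positivity) hs').trans ?_
    exact HG_sub (F := F) (f := fun y : ι × Fin m => y.1)
      (fun i hi => (mem_product.1 (hG' hi)).1) (fun i j => hsym i.1 j)

/-- The unit cubes. -/
def cube (hd : 1 ≤ d) (i : ℕ) : Set (Fin d → ℝ) :=
  Set.Icc (Function.update (fun _ => (0 : ℝ)) ⟨0, hd⟩ (2 * i))
    (Function.update (fun _ => (1 : ℝ)) ⟨0, hd⟩ (2 * i + 1))

theorem vol_cube (hd : 1 ≤ d) (i : ℕ) : volume (cube hd i) = 1 := by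
  unfold cube
  rw [Real.volume_Icc_pi]
  apply Finset.prod_eq_one
  intro j _
  rcases eq_or_ne j ⟨0, hd⟩ with rfl | hj
  · rw [Function.update_self, Function.update_self, add_sub_cancel_left, ENNReal.ofReal_one]
  · rw [Function.update_of_ne hj, Function.update_of_ne hj, sub_zero, ENNReal.ofReal_one]

theorem cube_inj (hd : 1 ≤ d) {i j : ℕ} {x : Fin d → ℝ} (hi : x ∈ cube hd i) (hj : x ∈ cube hd j) :
    i = j := by
  have h1 := hi.1 ⟨0, hd⟩
  have h2 := hi.2 ⟨0, hd⟩
  have h3 := hj.1 ⟨0, hd⟩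
  have h4 := hj.2 ⟨0, hd⟩
  rw [Function.update_self] at h1 h2 h3 h4
  have h5 : (2 * i : ℝ) ≤ 2 * j + 1 := by linarith
  have h6 : (2 * j : ℝ) ≤ 2 * i + 1 := by linarith
  have h7 : 2 * i ≤ 2 * j + 1 := by exact_mod_cast h5
  have h8 : 2 * j ≤ 2 * i + 1 := by exact_mod_cast h6
  omega

/-- The lower bound. -/
theorem lower (hd : 1 ≤ d) {α v C : ℝ} (hv : 0 < v)
    (h : ∀ ε : ℝ, 0 < ε → ε ≤ 1 → ∀ F : Finset (Set (Fin d → ℝ)), F.Nonempty →
      (∀ A ∈ F, Convex ℝ A ∧ volume A = 1) → ∃ S : Finset (Set (Fin d → ℝ)),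
        (S.card : ℝ) ≤ C * ε ^ (-α) ∧ (∀ s ∈ S, MeasurableSet s ∧ volume s = ENNReal.ofReal v) ∧
        ∀ G ⊆ F, ε * F.card ≤ G.card → ∃ s ∈ S, s ⊆ convexHull ℝ (⋃ A ∈ G, A)) : 1 ≤ α := by
  classical
  have hne : ∀ i, (cube hd i).Nonempty := by
    intro i
    apply nonempty_of_measure_ne_zero (μ := volume)
    rw [vol_cube]
    exact one_ne_zero
  have hinj : Function.Injective (cube hd) := by
    intro i j hij
    obtain ⟨x, hx⟩ := hne i
    exact cube_inj hd hx (hij ▸ hx)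
  have key : ∀ N : ℕ, 1 ≤ N → (N : ℝ) ≤ C * (N : ℝ) ^ α := by
    intro N hN
    have hN0 : (0 : ℝ) < N := by exact_mod_cast hN
    obtain ⟨S, hS1, hS2, hS3⟩ := h (1 / N) (by positivity) ((div_le_one hN0).2 (by exact_mod_cast hN))
      ((range N).image (cube hd)) (by
        rw [image_nonempty]
        exact ⟨0, mem_range.2 hN⟩) (fun A hA => by
        rw [mem_image] at hA
        obtain ⟨i, -, rfl⟩ := hA
        exact ⟨convex_Icc _ _, vol_cube hd i⟩)
    have h1 : ∀ i, ∃ s, i < N → s ∈ S ∧ s ⊆ cube hd i := by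
      intro i
      by_cases hi : i < N
      · obtain ⟨s, hs, hs'⟩ := hS3 {cube hd i} (by
          rw [singleton_subset_iff]
          exact mem_image_of_mem _ (mem_range.2 hi)) (by
          rw [card_image_of_injective _ hinj, card_range, card_singleton, one_div,
            inv_mul_cancel₀ hN0.ne', Nat.cast_one])
        refine ⟨s, fun _ => ⟨hs, hs'.trans ?_⟩⟩
        apply convexHull_min _ (convex_Icc _ _)
        intro x hx
        simp only [mem_singleton, Set.iUnion_iUnion_eq_left] at hx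
        exact hx
      · exact ⟨∅, fun h => absurd h hi⟩
    choose f hf using h1
    have h2 : (range N).card ≤ S.card := by
      apply card_le_card_of_injOn f
      · intro i hi
        exact (hf i (mem_range.1 (mem_coe.1 hi))).1
      · intro i hi j hj hij
        have hi' := hf i (mem_range.1 (mem_coe.1 hi))
        have hj' := hf j (mem_range.1 (mem_coe.1 hj))
        have h3 : (f i).Nonempty := by
          apply nonempty_of_measure_ne_zero (μ := volume)
          rw [(hS2 _ hi'.1).2]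
          exact (ENNReal.ofReal_pos.2 hv).ne'
        obtain ⟨x, hx⟩ := h3
        exact cube_inj hd (hi'.2 hx) (hj'.2 (hij ▸ hx))
    rw [card_range] at h2
    have h3 : (N : ℝ) ≤ S.card := by exact_mod_cast h2
    refine h3.trans (hS1.trans (le_of_eq ?_))
    rw [one_div, Real.inv_rpow hN0.le, Real.rpow_neg hN0.le, inv_inv]
  by_contra hc
  push Not at hc
  have h1 : Filter.Tendsto (fun N : ℕ => (N : ℝ) ^ (1 - α)) Filter.atTop Filter.atTop :=
    (tendsto_rpow_atTop (by linarith)).comp tendsto_natCast_atTop_atTop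
  obtain ⟨N, hN1, hN2⟩ := ((h1.eventually_gt_atTop C).and (Filter.eventually_ge_atTop 1)).exists
  have hN0 : (0 : ℝ) < N := by exact_mod_cast hN2
  have h2 := key N hN2
  have h3 : (N : ℝ) ^ (1 - α) * (N : ℝ) ^ α = N := by
    rw [← Real.rpow_add hN0, sub_add_cancel, Real.rpow_one]
  have h4 : (0 : ℝ) < (N : ℝ) ^ α := Real.rpow_pos_of_pos hN0 _
  nlinarith

end Pool.Agent.NH83.VN
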