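import Pool.Agent.NH83.VN.Geom

/-!
The nets, by induction on the dimension of the flat.
-/

set_option autoImplicit false

open Finset

namespace Pool.Agent.NH83.VN

/-- The thresholds. -/
theorem exists_seq {ρ : ℝ} (hρ : 0 < ρ) {sm : ℝ → ℝ} (hsm : ∀ x, 0 < x → 0 < sm x) :
    ∃ en th : ℕ → ℝ, en 0 = ρ / 2 ∧ (∀ j, 0 < en j) ∧ (∀ j, 0 < th (j + 1)) ∧
      (∀ j, en (j + 1) + 2 * th (j + 1) ≤ en j) ∧ ∀ j, en (j + 1) ≤ sm (th (j + 1)) := by
  obtain ⟨en, h0, h1⟩ : ∃ en : ℕ → ℝ, en 0 = ρ / 2 ∧ ∀ j, en (j + 1) = min (en j / 2) (sm (en j / 4)) :=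
    ⟨fun n => Nat.rec (ρ / 2) (fun _ x => min (x / 2) (sm (x / 4))) n, rfl, fun _ => rfl⟩
  have hpos : ∀ j, 0 < en j := by
    intro j
    induction j with
    | zero => rw [h0]; linarith
    | succ j ih =>
      rw [h1]
      exact lt_min (by linarith) (hsm _ (by linarith))
  refine ⟨en, fun j => en (j - 1) / 4, h0, hpos, fun j => ?_, fun j => ?_, fun j => ?_⟩
  · have := hpos (j + 1 - 1)
    linarith
  · have h2 : en (j + 1) ≤ en j / 2 := by rw [h1]; exact min_le_left _ _
    have h3 : j + 1 - 1 = j := by omega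
    dsimp only
    rw [h3]
    linarith
  · have h3 : j + 1 - 1 = j := by omega
    dsimp only
    rw [h3, h1]
    exact min_le_right _ _

/-- The frame of the construction. -/
theorem frame {d k J K g : ℕ} {X : Type} [Fintype X] [DecidableEq X] {P : X → Fin d → ℝ}
    {σ : Type} (Good : Finset X → σ → Prop) (hK : 1 ≤ K) (hg : 1 ≤ g) {c : ℕ → ℝ}
    {O : Finset (Fin (k + 1) → X)} (w : (Fin (k + 1) → X) → Fin (k + 1) → ℝ) {ρ : ℝ} {en th : ℕ → ℝ}
    (hth : ∀ j, 0 < th (j + 1)) (hen : ∀ j, en (j + 1) + 2 * th (j + 1) ≤ en j)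
    (hM : ((O.card / K ^ J + 1 : ℕ) : ℝ) < ρ * g ^ (k + 1) - en 0 * g ^ (k + 1)) {B : ℕ → ℝ}
    (N : ∀ j < J, ∀ b ⊆ O, ∀ m : ℝ, ∃ S : Finset σ, (S.card : ℝ) ≤ B j * b.card ∧
      ∀ G : Finset X, G.card = g →
        ((Uk (ext P) k c G \ b).card : ℝ) ≤ en (j + 1) * g ^ (k + 1) →
        ∀ L R : Finset (Fin (k + 1) → X), L ⊆ Uk (ext P) k c G ∩ b → R ⊆ Uk (ext P) k c G ∩ b →
          th (j + 1) * g ^ (k + 1) ≤ L.card → th (j + 1) * g ^ (k + 1) ≤ R.card →
          (∀ T ∈ L, ∑ i, w T i * ext P (T i) k ≤ m) →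
          (∀ T ∈ R, m ≤ ∑ i, w T i * ext P (T i) k) → ∃ s ∈ S, Good G s) :
    ∃ S : Finset σ, (S.card : ℝ) ≤ (∑ j ∈ range J, |B j|) * (2 * K) * O.card ∧
      ∀ G : Finset X, G.card = g → ρ * g ^ (k + 1) ≤ (Uk (ext P) k c G).card →
        ((Uk (ext P) k c G \ O).card : ℝ) ≤ en J * g ^ (k + 1) → ∃ s ∈ S, Good G s := by
  classical
  obtain ⟨pos, hinj, hlt, hpos⟩ := exists_pos O fun T => ∑ i, w T i * ext P (T i) k
  obtain ⟨M, hMM⟩ : ∃ M : ℕ, M = O.card / K ^ J + 1 := ⟨_, rfl⟩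
  have hthr := fun s => exists_thr (O := O) (pos := pos) hpos s
  choose m hm using hthr
  have hsub : ∀ x y, Bk O pos x y ⊆ O := fun x y a ha => (mem_Bk.1 ha).1
  have N' : ∀ j, ∃ f : ℕ → ℕ → Finset σ, j < J →
      ∀ i l, ((f i l).card : ℝ) ≤ B j * (Bk O pos (i * (M * K ^ (j + 1))) ((i + 1) * (M * K ^ (j + 1)))).card ∧
      ∀ G : Finset X, G.card = g →
        ((Uk (ext P) k c G \ Bk O pos (i * (M * K ^ (j + 1))) ((i + 1) * (M * K ^ (j + 1)))).card : ℝ) ≤ en (j + 1) * g ^ (k + 1) →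
        ∀ L R : Finset (Fin (k + 1) → X),
          L ⊆ Uk (ext P) k c G ∩ Bk O pos (i * (M * K ^ (j + 1))) ((i + 1) * (M * K ^ (j + 1))) →
          R ⊆ Uk (ext P) k c G ∩ Bk O pos (i * (M * K ^ (j + 1))) ((i + 1) * (M * K ^ (j + 1))) →
          th (j + 1) * g ^ (k + 1) ≤ L.card → th (j + 1) * g ^ (k + 1) ≤ R.card →
          (∀ T ∈ L, ∑ i, w T i * ext P (T i) k ≤ m ((i * K + l) * (M * K ^ j))) →
          (∀ T ∈ R, m ((i * K + l) * (M * K ^ j)) ≤ ∑ i, w T i * ext P (T i) k) → ∃ s ∈ f i l, Good G s := by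
    intro j
    by_cases hj : j < J
    · have h1 := fun i l => N j hj (Bk O pos (i * (M * K ^ (j + 1))) ((i + 1) * (M * K ^ (j + 1))))
        (hsub _ _) (m ((i * K + l) * (M * K ^ j)))
      choose f hf using h1
      exact ⟨f, fun _ i l => hf i l⟩
    · exact ⟨fun _ _ => ∅, fun h => absurd h hj⟩
  choose f hf using N'
  refine ⟨(range J).biUnion fun j => (range O.card).biUnion fun i => (range (K + 1)).biUnion fun l =>
    f j i l, ?_, ?_⟩
  · have h1 : ∀ j ∈ range J, ((((range O.card).biUnion fun i => (range (K + 1)).biUnion fun l =>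
        f j i l).card : ℕ) : ℝ) ≤ |B j| * (2 * K) * O.card := by
      intro j hj
      rw [mem_range] at hj
      have h2 : ∀ i, ((((range (K + 1)).biUnion fun l => f j i l).card : ℕ) : ℝ) ≤
          |B j| * (2 * K) * (Bk O pos (i * (M * K ^ (j + 1))) ((i + 1) * (M * K ^ (j + 1)))).card := by
        intro i
        calc ((((range (K + 1)).biUnion fun l => f j i l).card : ℕ) : ℝ)
            ≤ ((∑ l ∈ range (K + 1), (f j i l).card : ℕ) : ℝ) := by exact_mod_cast card_biUnion_le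
          _ = ∑ l ∈ range (K + 1), ((f j i l).card : ℝ) := by push_cast; rfl
          _ ≤ ∑ l ∈ range (K + 1), |B j| * (Bk O pos (i * (M * K ^ (j + 1))) ((i + 1) * (M * K ^ (j + 1)))).card := by
              refine sum_le_sum fun l _ => ((hf j hj i l).1).trans ?_
              exact mul_le_mul_of_nonneg_right (le_abs_self _) (Nat.cast_nonneg _)
          _ = ((K + 1 : ℕ) : ℝ) * (|B j| * (Bk O pos (i * (M * K ^ (j + 1))) ((i + 1) * (M * K ^ (j + 1)))).card) := by
              rw [sum_const, card_range, nsmul_eq_mul]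
          _ ≤ (2 * K) * (|B j| * (Bk O pos (i * (M * K ^ (j + 1))) ((i + 1) * (M * K ^ (j + 1)))).card) := by
              apply mul_le_mul_of_nonneg_right _ (by positivity)
              have : (1 : ℝ) ≤ K := by exact_mod_cast hK
              push_cast
              linarith
          _ = _ := by ring
      calc ((((range O.card).biUnion fun i => (range (K + 1)).biUnion fun l =>
            f j i l).card : ℕ) : ℝ)
          ≤ ((∑ i ∈ range O.card, ((range (K + 1)).biUnion fun l => f j i l).card : ℕ) : ℝ) := by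
            exact_mod_cast card_biUnion_le
        _ = ∑ i ∈ range O.card, ((((range (K + 1)).biUnion fun l => f j i l).card : ℕ) : ℝ) := by
            push_cast; rfl
        _ ≤ ∑ i ∈ range O.card, |B j| * (2 * K) *
            (Bk O pos (i * (M * K ^ (j + 1))) ((i + 1) * (M * K ^ (j + 1)))).card :=
            sum_le_sum fun i _ => h2 i
        _ = |B j| * (2 * K) * ((∑ i ∈ range O.card,
            (Bk O pos (i * (M * K ^ (j + 1))) ((i + 1) * (M * K ^ (j + 1)))).card : ℕ) : ℝ) := by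
            rw [← mul_sum]
            push_cast
            rfl
        _ ≤ _ := by
            apply mul_le_mul_of_nonneg_left _ (by positivity)
            exact_mod_cast sum_Bk (O := O) (pos := pos) (M * K ^ (j + 1)) O.card
    calc ((((range J).biUnion fun j => (range O.card).biUnion fun i => (range (K + 1)).biUnion fun l =>
        f j i l).card : ℕ) : ℝ)
        ≤ ((∑ j ∈ range J, ((range O.card).biUnion fun i => (range (K + 1)).biUnion fun l =>
        f j i l).card : ℕ) : ℝ) := by exact_mod_cast card_biUnion_le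
      _ = ∑ j ∈ range J, ((((range O.card).biUnion fun i => (range (K + 1)).biUnion fun l =>
        f j i l).card : ℕ) : ℝ) := by push_cast; rfl
      _ ≤ ∑ j ∈ range J, |B j| * (2 * K) * O.card := sum_le_sum h1
      _ = _ := by rw [sum_mul, sum_mul]
  · intro G hG hU hUO
    have hA : (0 : ℝ) < (g : ℝ) ^ (k + 1) := by
      have : (0 : ℝ) < g := by exact_mod_cast hg
      positivity
    obtain ⟨j, hj, i, hi, l, hl, h1, h2, h3⟩ := split_fam hK hinj hlt (Uk (ext P) k c G) hA hth hen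
      (lt_of_lt_of_le hM (by linarith)) hUO
    rw [← hMM] at h1 h2 h3
    have e2 : i * (M * K ^ (j + 1)) ≤ (i * K + l) * (M * K ^ j) := by
      calc i * (M * K ^ (j + 1)) = (i * K + 0) * (M * K ^ j) := by ring
        _ ≤ _ := Nat.mul_le_mul_right _ (by omega)
    have e3 : (i * K + l) * (M * K ^ j) ≤ (i + 1) * (M * K ^ (j + 1)) := by
      calc (i * K + l) * (M * K ^ j) ≤ (i * K + K) * (M * K ^ j) := Nat.mul_le_mul_right _ (by omega)
        _ = _ := by ring
    -- the threshold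
    have hthr : ∀ x ∈ O, ∀ y ∈ O, pos x < (i * K + l) * (M * K ^ j) → (i * K + l) * (M * K ^ j) ≤ pos y →
        ∑ i, w x i * ext P (x i) k ≤ m ((i * K + l) * (M * K ^ j)) ∧
        m ((i * K + l) * (M * K ^ j)) ≤ ∑ i, w y i * ext P (y i) k := hm _
    have hne : ∀ B : Finset (Fin (k + 1) → X), th (j + 1) * (g : ℝ) ^ (k + 1) ≤ (B.card : ℝ) → B.Nonempty := by
      intro B hB
      rw [← card_pos]
      have : (0 : ℝ) < B.card := lt_of_lt_of_le (mul_pos (hth j) hA) hB
      exact_mod_cast this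
    obtain ⟨y0, hy0⟩ := hne _ h3
    obtain ⟨x0, hx0⟩ := hne _ h2
    rw [mem_inter, mem_Bk] at hy0 hx0
    obtain ⟨s, hs, hs'⟩ := (hf j hj i l).2 G hG h1
      (Uk (ext P) k c G ∩ Bk O pos (i * (M * K ^ (j + 1))) ((i * K + l) * (M * K ^ j)))
      (Uk (ext P) k c G ∩ Bk O pos ((i * K + l) * (M * K ^ j)) ((i + 1) * (M * K ^ (j + 1))))
      (fun a ha => by
        rw [mem_inter, mem_Bk] at ha ⊢
        exact ⟨ha.1, ha.2.1, ha.2.2.1, lt_of_lt_of_le ha.2.2.2 e3⟩)
      (fun a ha => by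
        rw [mem_inter, mem_Bk] at ha ⊢
        exact ⟨ha.1, ha.2.1, e2.trans ha.2.2.1, ha.2.2.2⟩) h2 h3
      (fun T hT => by
        rw [mem_inter, mem_Bk] at hT
        exact (hthr T hT.2.1 y0 hy0.2.1 hT.2.2.2 hy0.2.2.1).1)
      (fun T hT => by
        rw [mem_inter, mem_Bk] at hT
        exact (hthr x0 hx0.2.1 T hT.2.1 hx0.2.2.2 hT.2.2.1).2)
    refine ⟨s, ?_, hs'⟩
    rw [mem_biUnion]
    refine ⟨j, mem_range.2 hj, ?_⟩
    rw [mem_biUnion]
    refine ⟨i, mem_range.2 hi, ?_⟩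
    rw [mem_biUnion]
    exact ⟨l, mem_range.2 (by omega), hs⟩

/-- The nets exist, with the given constants. -/
def Stm (d J : ℕ) (t : ℝ) (k : ℕ) (ρ δ Λ Q : ℝ) : Prop :=
    ∀ (X : Type) [Fintype X] [DecidableEq X] (P : X → Fin d → ℝ) (W : X → Matrix (Fin d) (Fin d) ℝ),
      (∀ i, (W i).det ≠ 0) → ∀ g K : ℕ, 1 ≤ K → 1 ≤ g → g ≤ Fintype.card X → Q ≤ g →
      Q * ((Fintype.card X : ℝ) / g) ^ d ≤ (K : ℝ) ^ J →
      ∀ (c : ℕ → ℝ) (O : Finset (Fin (k + 1) → X)), (∀ T ∈ O, Hit (ext P) k c T) →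
      ∃ S : Finset ((Fin d → ℝ) × X),
        (S.card : ℝ) ≤ Λ * K ^ (d - k) * ((Fintype.card X : ℝ) / g) ^ (d - 1 - k) *
          ((Fintype.card X : ℝ) / g) ^ (d * t) * (O.card / g ^ (k + 1)) ∧
        ∀ G : Finset X, G.card = g → ρ * g ^ (k + 1) ≤ (Uk (ext P) k c G).card →
          ((Uk (ext P) k c G \ O).card : ℝ) ≤ δ * g ^ (k + 1) →
          ∃ s ∈ S, ∀ j, Sym (HG P W G) s.1 ((1 / (2 * (d : ℝ) ^ 2)) • col (W s.2) j)

/-- The statement of the induction. -/
def PP (d J : ℕ) (t : ℝ) (k : ℕ) : Prop :=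
  ∀ ρ : ℝ, 0 < ρ → ∃ δ Λ Q : ℝ, 0 < δ ∧ 0 ≤ Λ ∧ 0 < Q ∧ Stm d J t k ρ δ Λ Q

/-- The size of the smallest blocks. -/
theorem size_M {d J k K g N n : ℕ} {Q ρ : ℝ} (hk : k + 1 ≤ d) (hg : 1 ≤ g) (hgN : g ≤ N)
    (hQ : Q ≤ g) (hρ : 8 / ρ ≤ Q) (hρ0 : 0 < ρ)
    (hK : Q * ((N : ℝ) / g) ^ d ≤ (K : ℝ) ^ J) (hn : n ≤ N ^ (k + 1)) :
    ((n / K ^ J + 1 : ℕ) : ℝ) < ρ * g ^ (k + 1) - ρ / 2 * g ^ (k + 1) := by
  have hg0 : (0 : ℝ) < g := by exact_mod_cast hg
  have hQ0 : 0 < Q := lt_of_lt_of_le (by positivity) hρ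
  have hN1 : (1 : ℝ) ≤ (N : ℝ) / g := by
    rw [le_div_iff₀ hg0, one_mul]
    exact_mod_cast hgN
  have hKJ : (0 : ℝ) < (K : ℝ) ^ J := lt_of_lt_of_le (by positivity) hK
  have hA : (1 : ℝ) ≤ (g : ℝ) ^ k := one_le_pow₀ (by exact_mod_cast hg)
  have h1 : ((n / K ^ J : ℕ) : ℝ) ≤ (n : ℝ) / (K : ℝ) ^ J := by
    have := Nat.cast_div_le (α := ℝ) (m := n) (n := K ^ J)
    rwa [Nat.cast_pow] at this
  have h2 : (n : ℝ) / (K : ℝ) ^ J ≤ (g : ℝ) ^ (k + 1) / Q := by
    rw [div_le_div_iff₀ hKJ hQ0]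
    have h3 : (n : ℝ) ≤ (N : ℝ) ^ (k + 1) := by exact_mod_cast hn
    have h4 : ((N : ℝ) / g) ^ (k + 1) ≤ ((N : ℝ) / g) ^ d := pow_le_pow_right₀ hN1 hk
    have h5 : Q * ((N : ℝ) / g) ^ (k + 1) ≤ (K : ℝ) ^ J :=
      (mul_le_mul_of_nonneg_left h4 hQ0.le).trans hK
    calc (n : ℝ) * Q ≤ (N : ℝ) ^ (k + 1) * Q := mul_le_mul_of_nonneg_right h3 hQ0.le
      _ = (g : ℝ) ^ (k + 1) * (Q * ((N : ℝ) / g) ^ (k + 1)) := by
          rw [div_pow]
          field_simp
      _ ≤ _ := mul_le_mul_of_nonneg_left h5 (by positivity)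
  have h3 : (1 : ℝ) ≤ (g : ℝ) ^ (k + 1) / Q := by
    rw [le_div_iff₀ hQ0, one_mul, pow_succ]
    nlinarith
  have h4 : (g : ℝ) ^ (k + 1) / Q ≤ (g : ℝ) ^ (k + 1) * (ρ / 8) := by
    rw [div_eq_mul_inv]
    apply mul_le_mul_of_nonneg_left _ (by positivity)
    rw [inv_le_comm₀ hQ0 (by positivity), inv_div]
    exact hρ
  have h5 : 0 < (g : ℝ) ^ (k + 1) * ρ := by positivity
  push_cast
  linarith

theorem base {d k J : ℕ} {t : ℝ} (hk : k + 1 = d) (ht : 0 < t) : PP d J t k := by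
  classical
  intro ρ hρ
  obtain ⟨en, th, h0, hen0, hth, hen, -⟩ := exists_seq hρ (sm := fun x => x) (fun x hx => hx)
  obtain ⟨C, hC1, hC⟩ := net_size d t ht
  refine ⟨en J, ∑ j ∈ range J, 2 * (C * (1 / th (j + 1)) ^ (1 + t)), 8 / ρ, hen0 J,
    sum_nonneg fun j _ => ?_, by positivity, ?_⟩
  · have := hth j
    positivity
  intro X _ _ P W hW g K hK hg hgX hQ hKJ c O hO
  have hd : 0 < d := by omega
  have hg0 : (0 : ℝ) < g := by exact_mod_cast hg
  have hA : (0 : ℝ) < (g : ℝ) ^ (k + 1) := by positivity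
  have hex : ∀ T : Fin (k + 1) → X, ∃ w : Fin (k + 1) → ℝ, T ∈ O → Wt (ext P) k c T w := by
    intro T
    by_cases hT : T ∈ O
    · obtain ⟨w, hw⟩ := hO T hT
      exact ⟨w, fun _ => hw⟩
    · exact ⟨0, fun h => absurd h hT⟩
  choose w hw using hex
  have hex2 : ∀ T : Fin (k + 1) → X, ∃ i : Fin (k + 1), T ∈ O → 1 / ((k + 1 : ℕ) : ℝ) ≤ w T i := by
    intro T
    by_cases hT : T ∈ O
    · obtain ⟨i, hi⟩ := exists_large (hw T hT).sum
      exact ⟨i, fun _ => hi⟩
    · exact ⟨0, fun h => absurd h hT⟩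
  choose bi hbi using hex2
  have hcX : (0 : ℝ) ≤ (Fintype.card X : ℝ) / g := by positivity
  have hOc : O.card ≤ Fintype.card X ^ (k + 1) := by
    refine (card_le_univ O).trans ?_
    rw [Fintype.card_fun, Fintype.card_fin]
  obtain ⟨S, hS1, hS2⟩ := frame (d := d) (J := J) (P := P) (g := g) (c := c) (O := O) (ρ := ρ)
    (en := en) (th := th)
    (fun (G : Finset X) (s : (Fin d → ℝ) × X) =>
      ∀ j, Sym (HG P W G) s.1 ((1 / (2 * (d : ℝ) ^ 2)) • col (W s.2) j)) hK hg w hth hen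
    (by rw [h0]; exact size_M (by omega) hg hgX hQ le_rfl hρ hKJ hOc)
    (B := fun j => C * (1 / th (j + 1)) ^ (1 + t) * ((Fintype.card X : ℝ) / g) ^ (d * t) / g ^ (k + 1))
    (by
      intro j hj b hb m
      obtain ⟨θ, hθ⟩ : ∃ θ : ℝ, θ = th (j + 1) * g ^ (k + 1) := ⟨_, rfl⟩
      have hθ0 : 0 < θ := by rw [hθ]; exact mul_pos (hth j) hA
      have hthj := hth j
      by_cases hbig : θ ≤ b.card
      · have hb0 : (0 : ℝ) < b.card := lt_of_lt_of_le hθ0 hbig
        obtain ⟨mm, hm1, hm2⟩ := hC (θ / b.card) (div_pos hθ0 hb0) ((div_le_one hb0).2 hbig)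
        obtain ⟨z, hz⟩ : ∃ z : Fin d → ℝ, ∀ j : Fin d, z j = Function.update c k m j :=
          ⟨fun j => Function.update c k m j, fun _ => rfl⟩
        have hcb : Fintype.card b = b.card := Fintype.card_coe b
        obtain ⟨A, hA1, hA2⟩ := net_at (P := P) hd hW (Y := b)
          (fun T => (T : Fin (k + 1) → X) (bi T)) (by rw [hcb]; exact_mod_cast hb0) mm
          (div_pos hθ0 hb0) hm2 z
        refine ⟨A, ?_, ?_⟩
        · calc (A.card : ℝ) ≤ mm := by exact_mod_cast hA1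
            _ ≤ C * (1 / (θ / b.card)) ^ (1 + t) := hm1
            _ = C * ((1 / th (j + 1)) * (b.card / g ^ (k + 1))) ^ (1 + t) := by
                rw [hθ]
                congr 2
                field_simp
            _ = C * (1 / th (j + 1)) ^ (1 + t) * ((b.card / g ^ (k + 1)) * (b.card / g ^ (k + 1)) ^ t) := by
                rw [Real.mul_rpow (by positivity) (by positivity), Real.rpow_add (x := (b.card : ℝ) / g ^ (k + 1))
                  (by positivity), Real.rpow_one]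
                ring
            _ ≤ C * (1 / th (j + 1)) ^ (1 + t) * ((b.card / g ^ (k + 1)) *
                ((Fintype.card X : ℝ) / g) ^ (d * t)) := by
                apply mul_le_mul_of_nonneg_left _ (by positivity)
                apply mul_le_mul_of_nonneg_left _ (by positivity)
                rw [Real.rpow_mul hcX, Real.rpow_natCast]
                apply Real.rpow_le_rpow (by positivity) _ ht.le
                rw [← hk, div_pow]
                apply div_le_div_of_nonneg_right _ hA.le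
                exact_mod_cast (card_le_card hb).trans hOc
            _ = _ := by ring
        · intro G hG _ L R hL hR hLc hRc hLm hRm
          have hmemU : ∀ T ∈ Uk (ext P) k c G, ∀ i, T i ∈ G := by
            intro T hT
            unfold Uk at hT
            exact (mem_filter.1 hT).2.1
          have hne : ∀ B : Finset (Fin (k + 1) → X), th (j + 1) * (g : ℝ) ^ (k + 1) ≤ (B.card : ℝ) →
              B.Nonempty := by
            intro B hB
            rw [← card_pos]
            have : (0 : ℝ) < B.card := lt_of_lt_of_le (mul_pos (hth j) hA) hB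
            exact_mod_cast this
          have hfin : ∀ L : Finset (Fin (k + 1) → X), L ⊆ Uk (ext P) k c G ∩ b →
              th (j + 1) * (g : ℝ) ^ (k + 1) ≤ L.card →
              (∀ T ∈ L, ∀ j, Sym (HG P W G) z ((1 / 2 : ℝ) • (1 / (d : ℝ)) • col (W (T (bi T))) j)) →
              ∃ s ∈ A, ∀ j, Sym (HG P W G) s.1 ((1 / (2 * (d : ℝ) ^ 2)) • col (W s.2) j) := by
            intro L hL hLc hsym
            apply hA2 G (L.subtype (· ∈ b))
            · rw [hcb, card_subtype, filter_true_of_mem (fun T hT => (mem_inter.1 (hL hT)).2),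
                div_mul_cancel₀ _ hb0.ne', hθ]
              exact hLc
            · intro s hs
              rw [mem_subtype] at hs
              exact hsym _ hs
          rcases side (P := P) (W := W) hk (G := G) (c := c) (m := m) (w := w) (L := L) (R := R) (bi := bi)
            (fun T hT => ⟨hmemU T (mem_inter.1 (hL hT)).1, hw T (hb (mem_inter.1 (hL hT)).2), hLm T hT⟩)
            (fun T hT => ⟨hmemU T (mem_inter.1 (hR hT)).1, hw T (hb (mem_inter.1 (hR hT)).2), hRm T hT⟩)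
            (hne L hLc) (hne R hRc) (fun T hT => hbi T (hb (mem_inter.1 (hL hT)).2))
            (fun T hT => hbi T (hb (mem_inter.1 (hR hT)).2)) hz with h | h
          · exact hfin L hL hLc h
          · exact hfin R hR hRc h
      · refine ⟨∅, ?_, ?_⟩
        · rw [card_empty, Nat.cast_zero]
          positivity
        · intro G hG _ L R hL hR hLc
          exfalso
          apply hbig
          rw [hθ]
          refine hLc.trans ?_
          exact_mod_cast card_le_card fun T hT => (mem_inter.1 (hL hT)).2)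
  refine ⟨S, hS1.trans (le_of_eq ?_), hS2⟩
  have e1 : d - k = 1 := by omega
  have e2 : d - 1 - k = 0 := by omega
  have e3 : ∀ j ∈ range J, |C * (1 / th (j + 1)) ^ (1 + t) * ((Fintype.card X : ℝ) / g) ^ (d * t) /
      g ^ (k + 1)| = 2 * (C * (1 / th (j + 1)) ^ (1 + t)) * (((Fintype.card X : ℝ) / g) ^ (d * t) /
      (2 * g ^ (k + 1))) := by
    intro j _
    have := hth j
    rw [abs_of_nonneg (by positivity)]
    field_simp
  rw [sum_congr rfl e3, ← sum_mul, e1, e2, pow_one, pow_zero, mul_one]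
  field_simp

theorem step {d k J : ℕ} {t : ℝ} (hk : k + 2 ≤ d) (ih : PP d J t (k + 1)) : PP d J t k := by
  classical
  have ih' : ∀ ρ : ℝ, ∃ δ Λ Q : ℝ, 0 < δ ∧ 0 ≤ Λ ∧ 0 < Q ∧ (0 < ρ → Stm d J t (k + 1) ρ δ Λ Q) := by
    intro ρ
    by_cases hρ : 0 < ρ
    · obtain ⟨δ, Λ, Q, h1, h2, h3, h4⟩ := ih ρ hρ
      exact ⟨δ, Λ, Q, h1, h2, h3, fun _ => h4⟩
    · exact ⟨1, 0, 1, one_pos, le_rfl, one_pos, fun h => absurd h hρ⟩
  choose δ' Λ' Q' hδ' hΛ' hQ' H using ih'
  obtain ⟨E, hE⟩ : ∃ E : ℝ, E = (Fintype.card (Fin (k + 2) ↪ Fin (k + 1) ⊕ Fin (k + 1)) : ℝ) + 1 :=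
    ⟨_, rfl⟩
  have hE0 : 0 < E := by rw [hE]; positivity
  intro ρ hρ
  obtain ⟨en, th, h0, hen0, hth, hen, hsm⟩ := exists_seq hρ
    (sm := fun x => δ' (x ^ 2 / E) / (k + 2)) (fun x hx => by
      have := hδ' (x ^ 2 / E)
      positivity)
  have hQs : ∀ j ∈ range J, 0 ≤ Q' (th (j + 1) ^ 2 / E) := fun j _ => (hQ' _).le
  refine ⟨en J, ∑ j ∈ range J, 2 * ((k + 2) * Λ' (th (j + 1) ^ 2 / E)),
    8 / ρ + ∑ j ∈ range J, Q' (th (j + 1) ^ 2 / E), hen0 J,
    sum_nonneg fun j _ => ?_, ?_, ?_⟩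
  · have := hΛ' (th (j + 1) ^ 2 / E)
    positivity
  · have := sum_nonneg hQs
    have h2 : 0 < 8 / ρ := by positivity
    linarith
  intro X _ _ P W hW g K hK hg hgX hQ hKJ c O hO
  have hd : 0 < d := by omega
  have hg0 : (0 : ℝ) < g := by exact_mod_cast hg
  have hA : (0 : ℝ) < (g : ℝ) ^ (k + 1) := by positivity
  have hcX : (0 : ℝ) ≤ (Fintype.card X : ℝ) / g := by positivity
  have hQ1 : 8 / ρ ≤ 8 / ρ + ∑ j ∈ range J, Q' (th (j + 1) ^ 2 / E) := by
    have := sum_nonneg hQs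
    linarith
  have hQj : ∀ j < J, Q' (th (j + 1) ^ 2 / E) ≤ 8 / ρ + ∑ j ∈ range J, Q' (th (j + 1) ^ 2 / E) := by
    intro j hj
    have h1 := single_le_sum hQs (mem_range.2 hj)
    have h2 : 0 < 8 / ρ := by positivity
    linarith
  have hex : ∀ T : Fin (k + 1) → X, ∃ w : Fin (k + 1) → ℝ, T ∈ O → Wt (ext P) k c T w := by
    intro T
    by_cases hT : T ∈ O
    · obtain ⟨w, hw⟩ := hO T hT
      exact ⟨w, fun _ => hw⟩
    · exact ⟨0, fun h => absurd h hT⟩
  choose w hw using hex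
  have hOc : O.card ≤ Fintype.card X ^ (k + 1) := by
    refine (card_le_univ O).trans ?_
    rw [Fintype.card_fun, Fintype.card_fin]
  obtain ⟨S, hS1, hS2⟩ := frame (d := d) (J := J) (P := P) (g := g) (c := c) (O := O) (ρ := ρ)
    (en := en) (th := th)
    (fun (G : Finset X) (s : (Fin d → ℝ) × X) =>
      ∀ j, Sym (HG P W G) s.1 ((1 / (2 * (d : ℝ) ^ 2)) • col (W s.2) j)) hK hg w hth hen
    (by rw [h0]; exact size_M (by omega) hg hgX hQ hQ1 hρ hKJ hOc)
    (B := fun j => Λ' (th (j + 1) ^ 2 / E) * K ^ (d - (k + 1)) *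
      ((Fintype.card X : ℝ) / g) ^ (d - 1 - (k + 1)) * ((Fintype.card X : ℝ) / g) ^ (d * t) *
      (((k + 2) * Fintype.card X) / g ^ (k + 2)))
    (by
      intro j hj b hb m
      have hthj := hth j
      have hρ' : 0 < th (j + 1) ^ 2 / E := by positivity
      have hc : ∀ i < k, Function.update c k m i = c i := fun i hi =>
        Function.update_of_ne (by omega) _ _
      obtain ⟨S, hS1, hS2⟩ := H _ hρ' X P W hW g K hK hg hgX ((hQj j hj).trans hQ)
        ((mul_le_mul_of_nonneg_right (hQj j hj) (by positivity)).trans hKJ) (Function.update c k m)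
        (chd (ext P) k (Function.update c k m) b) (fun T hT => by
          unfold chd at hT
          exact (mem_filter.1 hT).2.1)
      refine ⟨S, hS1.trans ?_, ?_⟩
      · have h1 : ((chd (ext P) k (Function.update c k m) b).card : ℝ) / g ^ (k + 1 + 1) ≤
            (((k + 2) * Fintype.card X) / g ^ (k + 2)) * b.card := by
          rw [div_mul_eq_mul_div]
          apply div_le_div_of_nonneg_right _ (by positivity)
          have h2 : ((chd (ext P) k (Function.update c k m) b).card : ℝ) ≤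
              (((k + 2) * b.card * Fintype.card X : ℕ) : ℝ) := by
            exact_mod_cast card_chd (ext P) k (Function.update c k m) b
          push_cast at h2
          linarith
        calc _ ≤ Λ' (th (j + 1) ^ 2 / E) * K ^ (d - (k + 1)) *
              ((Fintype.card X : ℝ) / g) ^ (d - 1 - (k + 1)) * ((Fintype.card X : ℝ) / g) ^ (d * t) *
              ((((k + 2) * Fintype.card X) / g ^ (k + 2)) * b.card) := by
              have := hΛ' (th (j + 1) ^ 2 / E)
              exact mul_le_mul_of_nonneg_left h1 (by positivity)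
          _ = _ := by ring
      · intro G hG hUb L R hL hR hLc hRc hLm hRm
        have hmemU : ∀ T ∈ Uk (ext P) k c G, ∀ i, T i ∈ G := by
          intro T hT
          unfold Uk at hT
          exact (mem_filter.1 hT).2.1
        apply hS2 G hG
        · have h1 := card_pairs (p := ext P) (c := c) m G L R
            (fun T hT => ⟨hmemU T (mem_inter.1 (hL hT)).1, w T, hw T (hb (mem_inter.1 (hL hT)).2), hLm T hT⟩)
            (fun T hT => ⟨hmemU T (mem_inter.1 (hR hT)).1, w T, hw T (hb (mem_inter.1 (hR hT)).2), hRm T hT⟩)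
          have h2 : (L.card : ℝ) * R.card ≤ (Fintype.card (Fin (k + 2) ↪ Fin (k + 1) ⊕ Fin (k + 1)) : ℝ) *
              (Uk (ext P) (k + 1) (Function.update c k m) G).card * (g : ℝ) ^ k := by
            rw [← hG]
            exact_mod_cast h1
          have h3 : (th (j + 1) * (g : ℝ) ^ (k + 1)) * (th (j + 1) * (g : ℝ) ^ (k + 1)) ≤
              (L.card : ℝ) * R.card := mul_le_mul hLc hRc (by positivity) (Nat.cast_nonneg _)
          have h4 : (Fintype.card (Fin (k + 2) ↪ Fin (k + 1) ⊕ Fin (k + 1)) : ℝ) *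
              (Uk (ext P) (k + 1) (Function.update c k m) G).card * (g : ℝ) ^ k ≤
              E * (Uk (ext P) (k + 1) (Function.update c k m) G).card * (g : ℝ) ^ k := by
            apply mul_le_mul_of_nonneg_right _ (by positivity)
            apply mul_le_mul_of_nonneg_right _ (Nat.cast_nonneg _)
            rw [hE]
            linarith
          have h5 : (th (j + 1) ^ 2 * (g : ℝ) ^ (k + 2)) * (g : ℝ) ^ k ≤
              (E * (Uk (ext P) (k + 1) (Function.update c k m) G).card) * (g : ℝ) ^ k := by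
            refine le_trans (le_of_eq ?_) (h3.trans (h2.trans h4))
            ring
          have h6 := le_of_mul_le_mul_right h5 (by positivity)
          rw [div_mul_eq_mul_div, div_le_iff₀ hE0]
          refine le_trans (le_of_eq ?_) (h6.trans (le_of_eq ?_)) <;> ring
        · have h1 := card_out (ext P) hc G b
          have h2 : ((Uk (ext P) (k + 1) (Function.update c k m) G \
              chd (ext P) k (Function.update c k m) b).card : ℝ) ≤
              (k + 2) * (Uk (ext P) k c G \ b).card * g := by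
            rw [← hG]
            exact_mod_cast h1
          have h3 := hsm j
          rw [le_div_iff₀ (by positivity)] at h3
          calc _ ≤ (k + 2) * ((Uk (ext P) k c G \ b).card : ℝ) * g := h2
            _ ≤ (k + 2) * (en (j + 1) * g ^ (k + 1)) * g := by
                apply mul_le_mul_of_nonneg_right _ hg0.le
                exact mul_le_mul_of_nonneg_left hUb (by positivity)
            _ = (en (j + 1) * (k + 2)) * g ^ (k + 1 + 1) := by ring
            _ ≤ _ := mul_le_mul_of_nonneg_right h3 (by positivity))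
  refine ⟨S, hS1.trans (le_of_eq ?_), hS2⟩
  obtain ⟨e, he⟩ : ∃ e, d = k + 2 + e := ⟨d - (k + 2), by omega⟩
  have e1 : d - k = e + 2 := by omega
  have e2 : d - 1 - k = e + 1 := by omega
  have e1' : d - (k + 1) = e + 1 := by omega
  have e2' : d - 1 - (k + 1) = e := by omega
  rw [e1, e2, e1', e2']
  obtain ⟨R, hR⟩ : ∃ R : ℝ, R = ((Fintype.card X : ℝ) / g) ^ ((d : ℝ) * t) := ⟨_, rfl⟩
  have hR0 : 0 ≤ R := by rw [hR]; positivity
  rw [← hR]
  have e3 : ∀ j ∈ range J, |Λ' (th (j + 1) ^ 2 / E) * (K : ℝ) ^ (e + 1) *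
      ((Fintype.card X : ℝ) / g) ^ e * R *
      (((k + 2) * Fintype.card X) / g ^ (k + 2))| = 2 * ((k + 2) * Λ' (th (j + 1) ^ 2 / E)) *
      ((K : ℝ) ^ (e + 1) * ((Fintype.card X : ℝ) / g) ^ e * R * (Fintype.card X / g ^ (k + 2)) / 2) := by
    intro j _
    have := hΛ' (th (j + 1) ^ 2 / E)
    rw [abs_of_nonneg (by positivity)]
    ring
  rw [sum_congr rfl e3, ← sum_mul]
  have e4 : (Fintype.card X : ℝ) / g ^ (k + 2) = (Fintype.card X : ℝ) / g / g ^ (k + 1) := by
    rw [div_div]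
    congr 1
    ring
  rw [e4]
  ring

theorem PP_all {d J : ℕ} {t : ℝ} (ht : 0 < t) : ∀ j k : ℕ, k + j + 1 = d → PP d J t k := by
  intro j
  induction j with
  | zero => intro k hk; exact base (by omega) ht
  | succ j ih => intro k hk; exact step (by omega) (ih (k + 1) (by omega))

end Pool.Agent.NH83.VN
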