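import Pool.Agent.NH83.VN.HW

/-!
Traces of half-spaces, slabs, and parallelepipeds; the net for centred bodies.
-/

set_option autoImplicit false

open Finset

namespace Pool.Agent.NH83.VN

section half

variable {I : Type*} [Fintype I] [DecidableEq I] {d : ℕ}

open Classical in
/-- The subsets of a family of points which are cut out by half-spaces `ℓ ≤ 1`. -/
noncomputable def halfs (x : I → Fin d → ℝ) : Finset (Finset I) :=
  univ.filter fun τ => ∃ l : Fin d → ℝ, τ = univ.filter fun i => l ⬝ᵥ x i ≤ 1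

theorem not_shatters (x : I → Fin d → ℝ) (s : Finset I) (hs : d < s.card) :
    ¬ (halfs x).Shatters s := by
  classical
  intro hsh
  have h1 : ¬ LinearIndependent ℝ (fun i : s => x i) := by
    intro h
    have h2 := h.fintype_card_le_finrank
    rw [Fintype.card_coe, Module.finrank_fin_fun] at h2
    omega
  rw [Fintype.not_linearIndependent_iff] at h1
  obtain ⟨g0, hg0, i0, hi0⟩ := h1
  -- the sign
  obtain ⟨g, hg, hg1, hg2⟩ : ∃ g : s → ℝ, ∑ i, g i • x i = 0 ∧ (∃ i, g i ≠ 0) ∧ 0 ≤ ∑ i, g i := by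
    rcases le_total 0 (∑ i, g0 i) with h | h
    · exact ⟨g0, hg0, ⟨i0, hi0⟩, h⟩
    · refine ⟨fun i => - g0 i, ?_, ⟨i0, neg_ne_zero.2 hi0⟩, ?_⟩
      · simp only [neg_smul, sum_neg_distrib, hg0, neg_zero]
      · rw [sum_neg_distrib]
        linarith
  obtain ⟨u, hu, hsu⟩ := hsh (t := (univ.filter fun i : s => g i ≤ 0).image Subtype.val) (by
    intro i hi
    rw [mem_image] at hi
    obtain ⟨j, -, rfl⟩ := hi
    exact j.2)
  unfold halfs at hu
  rw [mem_filter] at hu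
  obtain ⟨-, l, rfl⟩ := hu
  have h3 : ∀ i : s, g i ≤ 0 ↔ l ⬝ᵥ x i ≤ 1 := by
    intro i
    have h4 : (i : I) ∈ s ∩ (univ.filter fun i => l ⬝ᵥ x i ≤ 1) ↔
        (i : I) ∈ (univ.filter fun i : s => g i ≤ 0).image Subtype.val := by rw [hsu]
    rw [mem_inter, mem_filter, mem_image] at h4
    constructor
    · intro h
      exact (h4.2 ⟨i, mem_filter.2 ⟨mem_univ _, h⟩, rfl⟩).2.2
    · intro h
      obtain ⟨j, hj, hji⟩ := h4.1 ⟨i.2, mem_univ _, h⟩
      have : j = i := Subtype.ext hji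
      rw [← this]
      exact (mem_filter.1 hj).2
  have h5 : ∑ i, g i * (l ⬝ᵥ x i) = 0 := by
    have h6 := congrArg (fun v => l ⬝ᵥ v) hg
    simp only [dotProduct_zero] at h6
    rw [← h6, dotProduct_sum]
    refine sum_congr rfl fun i _ => ?_
    rw [dotProduct_smul, smul_eq_mul]
  have h7 : ∀ i : s, g i ≤ g i * (l ⬝ᵥ x i) := by
    intro i
    rcases le_or_gt (g i) 0 with h | h
    · have := (h3 i).1 h
      nlinarith
    · have h8 : ¬ l ⬝ᵥ x i ≤ 1 := fun h9 => by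
        have := (h3 i).2 h9
        linarith
      push Not at h8
      nlinarith
  have h8 : ∃ i : s, 0 < g i := by
    by_contra hc
    push Not at hc
    obtain ⟨i, hi⟩ := hg1
    have h9 : ∑ i, g i < 0 := by
      exact sum_neg' (fun j _ => hc j) ⟨i, mem_univ _, lt_of_le_of_ne (hc i) hi⟩
    linarith
  obtain ⟨i, hi⟩ := h8
  have h9 : ∑ i, g i < ∑ i, g i * (l ⬝ᵥ x i) := by
    apply sum_lt_sum (fun j _ => h7 j)
    refine ⟨i, mem_univ _, ?_⟩
    have h8 : ¬ l ⬝ᵥ x i ≤ 1 := fun h9 => by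
      have := (h3 i).2 h9
      linarith
    push Not at h8
    nlinarith
  linarith

theorem card_halfs (x : I → Fin d → ℝ) : (halfs x).card ≤ (Fintype.card I + 1) ^ d := by
  classical
  have h1 : (halfs x).vcDim ≤ d := by
    unfold Finset.vcDim
    apply Finset.sup_le
    intro s hs
    rw [mem_shatterer] at hs
    by_contra hc
    push Not at hc
    exact not_shatters x s hc hs
  calc (halfs x).card ≤ (halfs x).shatterer.card := card_le_card_shatterer _
    _ ≤ ∑ k ∈ Iic (halfs x).vcDim, (Fintype.card I).choose k := card_shatterer_le_sum_vcDim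
    _ ≤ ∑ k ∈ range (d + 1), (Fintype.card I).choose k := by
        apply sum_le_sum_of_subset
        intro k hk
        rw [mem_Iic] at hk
        rw [mem_range]
        omega
    _ ≤ ∑ k ∈ range (d + 1), (Fintype.card I) ^ k * 1 ^ (d - k) * d.choose k := by
        apply sum_le_sum
        intro k hk
        rw [mem_range] at hk
        rw [one_pow, mul_one]
        calc (Fintype.card I).choose k ≤ (Fintype.card I) ^ k := Nat.choose_le_pow _ _
          _ = (Fintype.card I) ^ k * 1 := (mul_one _).symm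
          _ ≤ _ := Nat.mul_le_mul_left _ (Nat.choose_pos (by omega))
    _ = (Fintype.card I + 1) ^ d := (add_pow _ _ _).symm

open Classical in
/-- The subsets cut out by slabs. -/
noncomputable def slabs (x : I → Fin d → ℝ) : Finset (Finset I) :=
  univ.filter fun τ => ∃ l : Fin d → ℝ, τ = univ.filter fun i => |l ⬝ᵥ x i| ≤ 1

theorem card_slabs (x : I → Fin d → ℝ) : (slabs x).card ≤ ((Fintype.card I + 1) ^ d) ^ 2 := by
  classical
  have h1 : slabs x ⊆ image₂ (fun a b => a ∩ b) (halfs x) (halfs x) := by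
    intro τ hτ
    unfold slabs at hτ
    rw [mem_filter] at hτ
    obtain ⟨-, l, rfl⟩ := hτ
    rw [mem_image₂]
    refine ⟨univ.filter fun i => l ⬝ᵥ x i ≤ 1, ?_, univ.filter fun i => (-l) ⬝ᵥ x i ≤ 1, ?_, ?_⟩
    · unfold halfs
      exact mem_filter.2 ⟨mem_univ _, l, rfl⟩
    · unfold halfs
      exact mem_filter.2 ⟨mem_univ _, -l, rfl⟩
    · ext i
      rw [mem_inter, mem_filter, mem_filter, mem_filter, neg_dotProduct, abs_le]
      constructor
      · rintro ⟨⟨-, h1⟩, -, h2⟩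
        exact ⟨mem_univ _, by linarith, h1⟩
      · rintro ⟨-, h1, h2⟩
        exact ⟨⟨mem_univ _, h2⟩, mem_univ _, by linarith⟩
  calc (slabs x).card ≤ (image₂ (fun a b => a ∩ b) (halfs x) (halfs x)).card := card_le_card h1
    _ ≤ (halfs x).card * (halfs x).card := card_image₂_le _ _ _
    _ ≤ _ := by
        rw [pow_two]
        exact Nat.mul_le_mul (card_halfs x) (card_halfs x)

end half

section par

variable {Y : Type*} [Fintype Y] [DecidableEq Y] {d : ℕ}

open Classical in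
/-- The bodies contained in the parallelepiped `{x | |L x| ≤ 1}`. -/
noncomputable def parR (M : Y → Matrix (Fin d) (Fin d) ℝ) (L : Matrix (Fin d) (Fin d) ℝ) : Finset Y :=
  univ.filter fun y => ∀ i j, |(L * M y) i j| ≤ 1

theorem traces_par (M : Y → Matrix (Fin d) (Fin d) ℝ) {m : ℕ} (u : Fin m ⊕ Fin m → Y) :
    ((traces (Set.range (parR M)) u).ncard : ℝ) ≤ ((2 * m * d + 1 : ℕ) : ℝ) ^ (2 * d ^ 2) := by
  classical
  obtain ⟨x, hx⟩ : ∃ x : (Fin m ⊕ Fin m) × Fin d → Fin d → ℝ, ∀ k r, x k r = M (u k.1) r k.2 :=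
    ⟨_, fun _ _ => rfl⟩
  obtain ⟨D, hD⟩ : ∃ D : Finset (Finset (Fin m ⊕ Fin m)), D =
    (Fintype.piFinset fun _ : Fin d => slabs x).image fun F =>
      univ.filter fun k => ∀ i j, (k, j) ∈ F i := ⟨_, rfl⟩
  have h1 : traces (Set.range (parR M)) u ⊆ (D : Set (Finset (Fin m ⊕ Fin m))) := by
    rintro τ ⟨R, ⟨L, rfl⟩, rfl⟩
    rw [mem_coe, hD, mem_image]
    refine ⟨fun i => univ.filter fun k => |L i ⬝ᵥ x k| ≤ 1, ?_, ?_⟩
    · rw [Fintype.mem_piFinset]
      intro i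
      unfold slabs
      exact mem_filter.2 ⟨mem_univ _, L i, rfl⟩
    · have he : ∀ k i j, (L * M (u k)) i j = L i ⬝ᵥ x (k, j) := by
        intro k i j
        rw [Matrix.mul_apply]
        exact sum_congr rfl fun r _ => by rw [hx]
      ext k
      rw [mem_filter, mem_filter]
      unfold parR
      rw [mem_filter]
      constructor
      · rintro ⟨-, h⟩
        refine ⟨mem_univ _, mem_univ _, fun i j => ?_⟩
        rw [he]
        exact (mem_filter.1 (h i j)).2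
      · rintro ⟨-, -, h⟩
        refine ⟨mem_univ _, fun i j => mem_filter.2 ⟨mem_univ _, ?_⟩⟩
        rw [← he]
        exact h i j
  have h2 : (traces (Set.range (parR M)) u).ncard ≤ D.card := by
    rw [← Set.ncard_coe_finset D]
    exact Set.ncard_le_ncard h1 (finite_toSet D)
  have h3 : D.card ≤ (2 * m * d + 1) ^ (2 * d ^ 2) := by
    rw [hD]
    refine card_image_le.trans ?_
    rw [Fintype.card_piFinset, prod_const, card_univ, Fintype.card_fin]
    calc (slabs x).card ^ d ≤ (((Fintype.card ((Fin m ⊕ Fin m) × Fin d) + 1) ^ d) ^ 2) ^ d :=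
          Nat.pow_le_pow_left (card_slabs x) d
      _ = (2 * m * d + 1) ^ (2 * d ^ 2) := by
          rw [Fintype.card_prod, Fintype.card_sum, Fintype.card_fin, Fintype.card_fin, ← pow_mul,
            ← pow_mul]
          congr 1 <;> ring
  exact_mod_cast h2.trans h3

/-- The vertices of the cross-polytopes which are the images of the standard one under the matrices
`M s`. -/
def pts (M : Y → Matrix (Fin d) (Fin d) ℝ) (S : Finset Y) : Set (Fin d → ℝ) :=
  {x | ∃ s ∈ S, ∃ j, x = (fun r => M s r j) ∨ x = -(fun r => M s r j)}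

omit [Fintype Y] [DecidableEq Y] in
/-- The parallelepiped spanned by a suitable choice of vertices contains all the bodies. -/
theorem auerbach (M : Y → Matrix (Fin d) (Fin d) ℝ) (hM : ∀ y, (M y).det ≠ 0)
    {S : Finset Y} (hS : S.Nonempty) : ∃ V : Matrix (Fin d) (Fin d) ℝ, V.det ≠ 0 ∧
      (∀ i, (fun r => V r i) ∈ pts M S) ∧ ∀ s ∈ S, ∀ i j, |(V⁻¹ * M s) i j| ≤ 1 := by
  classical
  obtain ⟨s0, hs0⟩ := hS
  have : Nonempty (Fin d → S × Fin d) := ⟨fun i => (⟨s0, hs0⟩, i)⟩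
  obtain ⟨W, hW⟩ : ∃ W : (Fin d → S × Fin d) → Matrix (Fin d) (Fin d) ℝ,
      ∀ f r i, W f r i = M (f i).1 r (f i).2 := ⟨fun f => Matrix.of fun r i => M (f i).1 r (f i).2,
        fun _ _ _ => rfl⟩
  obtain ⟨f, hf⟩ := Finite.exists_max fun f : Fin d → S × Fin d => |(W f).det|
  have hdet : 0 < |(W f).det| := by
    refine lt_of_lt_of_le ?_ (hf fun i => (⟨s0, hs0⟩, i))
    have h1 : W (fun i => (⟨s0, hs0⟩, i)) = M s0 := by
      ext r i
      rw [hW]
    rw [h1]
    exact abs_pos.2 (hM s0)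
  have hdet' : (W f).det ≠ 0 := abs_pos.1 hdet
  refine ⟨W f, hdet', fun i => ⟨(f i).1, (f i).1.2, (f i).2, Or.inl ?_⟩, fun s hs i j => ?_⟩
  · funext r
    rw [hW]
  · have h1 : ((W f)⁻¹ * M s) i j = (W f).det⁻¹ * ((W f).updateCol i fun r => M s r j).det := by
      rw [Matrix.inv_def, Ring.inverse_eq_inv', Matrix.smul_mul, Matrix.smul_apply, smul_eq_mul]
      congr 1
      rw [← Matrix.cramer_apply, Matrix.cramer_eq_adjugate_mulVec, Matrix.mulVec,
        Matrix.mul_apply]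
      rfl
    have h2 : (W f).updateCol i (fun r => M s r j) = W (Function.update f i (⟨s, hs⟩, j)) := by
      ext r k
      rw [hW]
      by_cases hk : k = i
      · subst hk
        rw [Matrix.updateCol_self, Function.update_self]
      · rw [Matrix.updateCol_ne hk, Function.update_of_ne hk, hW]
    rw [h1, h2, abs_mul, abs_inv, inv_mul_le_iff₀ hdet, mul_one]
    exact hf _

omit [Fintype Y] [DecidableEq Y] in
theorem neg_pts {M : Y → Matrix (Fin d) (Fin d) ℝ} {S : Finset Y} {x : Fin d → ℝ}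
    (hx : x ∈ pts M S) : -x ∈ pts M S := by
  obtain ⟨s, hs, j, h | h⟩ := hx
  · exact ⟨s, hs, j, Or.inr (by rw [h])⟩
  · exact ⟨s, hs, j, Or.inl (by rw [h, neg_neg])⟩

/-- An element of `[-1,1] x` is in every symmetric convex set containing `x`. -/
theorem smul_mem_of_abs {K : Set (Fin d → ℝ)} (hK : Convex ℝ K) {x : Fin d → ℝ} (hx : x ∈ K)
    (hx' : -x ∈ K) {t : ℝ} (ht : |t| ≤ 1) : t • x ∈ K := by
  rw [abs_le] at ht
  have h1 := hK hx hx' (a := (1 + t) / 2) (b := (1 - t) / 2) (by linarith) (by linarith) (by ring)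
  have h2 : ((1 + t) / 2) • x + ((1 - t) / 2) • -x = t • x := by
    rw [smul_neg, ← sub_eq_add_neg, ← sub_smul]
    congr 1
    ring
  rwa [h2] at h1

/-- The average of `d` elements. -/
theorem avg_mem (hd : 0 < d) {K : Set (Fin d → ℝ)} (hK : Convex ℝ K) {v : Fin d → Fin d → ℝ}
    (hv : ∀ i, v i ∈ K) : (1 / (d : ℝ)) • ∑ i, v i ∈ K := by
  have hd' : (d : ℝ) ≠ 0 := by exact_mod_cast hd.ne'
  have h1 := hK.sum_mem (t := univ) (w := fun _ : Fin d => 1 / (d : ℝ)) (z := v)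
    (fun _ _ => by positivity) (by
      rw [sum_const, card_univ, Fintype.card_fin, nsmul_eq_mul]
      field_simp) (fun i _ => hv i)
  rwa [← smul_sum] at h1

/-- **Nets for centred bodies.** -/
theorem centred_net (hd : 0 < d) (M : Y → Matrix (Fin d) (Fin d) ℝ) (hM : ∀ y, (M y).det ≠ 0)
    (hN : 0 < Fintype.card Y) (m : ℕ) {δ : ℝ} (hδ : 0 < δ)
    (hm : ((2 * m * d + 1 : ℕ) : ℝ) ^ (2 * d ^ 2) * (2 : ℝ) ^ (-(δ * m / 2)) < δ / 2) :
    ∃ A : Finset Y, A.card ≤ m ∧ ∀ S : Finset Y, δ * Fintype.card Y ≤ S.card →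
      ∃ a ∈ A, ∀ j, (1 / (d : ℝ)) • (fun r => M a r j) ∈ convexHull ℝ (pts M S) ∧
        -((1 / (d : ℝ)) • (fun r => M a r j)) ∈ convexHull ℝ (pts M S) := by
  classical
  obtain ⟨a, ha⟩ := eps_net (Set.range (parR M)) m hδ hN (traces_par M) hm
  refine ⟨univ.image a, ?_, fun S hS => ?_⟩
  · refine card_image_le.trans ?_
    rw [card_univ, Fintype.card_fin]
  have hSn : S.Nonempty := by
    rw [← card_pos]
    have h1 : (0 : ℝ) < δ * Fintype.card Y := by
      have : (0 : ℝ) < Fintype.card Y := by exact_mod_cast hN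
      positivity
    exact_mod_cast h1.trans_le hS
  obtain ⟨V, hV, hV1, hV2⟩ := auerbach M hM hSn
  have h1 : S ⊆ parR M V⁻¹ := by
    intro s hs
    unfold parR
    exact mem_filter.2 ⟨mem_univ _, hV2 s hs⟩
  obtain ⟨i, hi⟩ := ha (parR M V⁻¹) ⟨V⁻¹, rfl⟩ (hS.trans (by exact_mod_cast card_le_card h1))
  refine ⟨a i, mem_image_of_mem _ (mem_univ _), fun j => ?_⟩
  unfold parR at hi
  rw [mem_filter] at hi
  obtain ⟨-, hi⟩ := hi
  have hK : Convex ℝ (convexHull ℝ (pts M S)) := convex_convexHull ℝ _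
  have h2 : (fun r => M (a i) r j) = ∑ k, (V⁻¹ * M (a i)) k j • (fun r => V r k) := by
    funext r
    have h3 : M (a i) = V * (V⁻¹ * M (a i)) := by
      rw [← Matrix.mul_assoc, Matrix.mul_nonsing_inv _ (Ne.isUnit hV), Matrix.one_mul]
    conv_lhs => rw [h3]
    rw [Matrix.mul_apply, Finset.sum_apply]
    refine sum_congr rfl fun k _ => ?_
    rw [Pi.smul_apply, smul_eq_mul, mul_comm]
  have h3 : ∀ k, (V⁻¹ * M (a i)) k j • (fun r => V r k) ∈ convexHull ℝ (pts M S) := fun k =>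
    smul_mem_of_abs hK (subset_convexHull ℝ _ (hV1 k)) (subset_convexHull ℝ _ (neg_pts (hV1 k)))
      (hi k j)
  have h4 : ∀ k, -((V⁻¹ * M (a i)) k j • (fun r => V r k)) ∈ convexHull ℝ (pts M S) := fun k => by
    rw [← neg_smul]
    exact smul_mem_of_abs hK (subset_convexHull ℝ _ (hV1 k))
      (subset_convexHull ℝ _ (neg_pts (hV1 k))) (by rw [abs_neg]; exact hi k j)
  rw [h2]
  refine ⟨avg_mem hd hK h3, ?_⟩
  have h5 := avg_mem hd hK h4
  rwa [sum_neg_distrib, smul_neg] at h5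

end par

/-- The size of the nets. -/
theorem net_size (d : ℕ) (t : ℝ) (ht : 0 < t) : ∃ C : ℝ, 1 ≤ C ∧ ∀ δ : ℝ, 0 < δ → δ ≤ 1 →
    ∃ m : ℕ, (m : ℝ) ≤ C * (1 / δ) ^ (1 + t) ∧
      ((2 * m * d + 1 : ℕ) : ℝ) ^ (2 * d ^ 2) * (2 : ℝ) ^ (-(δ * m / 2)) < δ / 2 := by
  obtain ⟨q, hq⟩ : ∃ q : ℕ, q = 2 * d ^ 2 := ⟨_, rfl⟩
  obtain ⟨p, hp⟩ : ∃ p : ℕ, (1 + t) * q + 1 ≤ p * t := by
    obtain ⟨p, hp⟩ := exists_nat_ge (((1 + t) * q + 1) / t)
    exact ⟨p, by rwa [div_le_iff₀ ht] at hp⟩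
  -- the exponential function beats the polynomial
  obtain ⟨y0, hy0⟩ : ∃ y0 : ℝ, ∀ y, y0 ≤ y →
      2 * (4 * d + 1 : ℝ) ^ q * y ^ (q + p) * (2 : ℝ) ^ (-(y / 2)) < 1 := by
    have h1 : Filter.Tendsto (fun y : ℝ => 2 * (4 * d + 1 : ℝ) ^ q * (2 / Real.log 2) ^ (q + p) *
        ((Real.log 2 / 2 * y) ^ (q + p) * Real.exp (-(Real.log 2 / 2 * y)))) Filter.atTop
        (nhds (2 * (4 * d + 1 : ℝ) ^ q * (2 / Real.log 2) ^ (q + p) * 0)) := by
      apply Filter.Tendsto.const_mul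
      exact (Real.tendsto_pow_mul_exp_neg_atTop_nhds_zero (q + p)).comp
        (Filter.tendsto_id.const_mul_atTop (by positivity))
    rw [mul_zero] at h1
    obtain ⟨y0, h2⟩ := Filter.eventually_atTop.1 (h1.eventually (gt_mem_nhds one_pos))
    refine ⟨y0, fun y hy => ?_⟩
    have h3 := h2 y hy
    have hl : Real.log 2 ≠ 0 := (Real.log_pos (by norm_num)).ne'
    have h4 : (2 : ℝ) ^ (-(y / 2)) = Real.exp (-(Real.log 2 / 2 * y)) := by
      rw [Real.rpow_def_of_pos (by norm_num)]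
      congr 1
      ring
    rw [h4]
    refine lt_of_eq_of_lt ?_ h3
    rw [mul_pow, div_pow, div_pow]
    field_simp
  obtain ⟨C0, hC0⟩ : ∃ C0 : ℝ, C0 = max 1 y0 := ⟨_, rfl⟩
  have hC1 : 1 ≤ C0 := by rw [hC0]; exact le_max_left _ _
  have hCy : y0 ≤ C0 := by rw [hC0]; exact le_max_right _ _
  refine ⟨2 * C0, by linarith, fun δ hδ hδ1 => ?_⟩
  obtain ⟨s, hs⟩ : ∃ s : ℝ, s = 1 / δ := ⟨_, rfl⟩
  have hs1 : 1 ≤ s := by rw [hs, le_div_iff₀ hδ]; linarith
  have hs0 : 0 < s := by linarith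
  have hδs : δ = 1 / s := by rw [hs]; field_simp
  rw [← hs]
  have hst : 1 ≤ s ^ t := Real.one_le_rpow hs1 ht.le
  have hst1 : 1 ≤ s ^ (1 + t) := Real.one_le_rpow hs1 (by linarith)
  refine ⟨⌈C0 * s ^ (1 + t)⌉₊, ?_, ?_⟩
  · have h1 := (Nat.ceil_lt_add_one (a := C0 * s ^ (1 + t)) (by positivity)).le
    nlinarith
  obtain ⟨m, hm⟩ : ∃ m : ℕ, m = ⌈C0 * s ^ (1 + t)⌉₊ := ⟨_, rfl⟩
  rw [← hm]
  have hm1 : C0 * s ^ (1 + t) ≤ m := by rw [hm]; exact Nat.le_ceil _
  have hm2 : (m : ℝ) ≤ 2 * C0 * s ^ (1 + t) := by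
    have h1 := (Nat.ceil_lt_add_one (a := C0 * s ^ (1 + t)) (by positivity)).le
    rw [← hm] at h1
    nlinarith
  obtain ⟨y, hy⟩ : ∃ y : ℝ, y = C0 * s ^ t := ⟨_, rfl⟩
  have hy1 : C0 ≤ y := by rw [hy]; nlinarith
  have hys : s ^ t ≤ y := by rw [hy]; nlinarith
  have hypos : 0 < y := by linarith
  have e1 : s ^ (1 + t) = s * s ^ t := by rw [Real.rpow_add hs0, Real.rpow_one]
  have e2 : y / 2 ≤ δ * m / 2 := by
    have h1 : y ≤ δ * m := by
      rw [hδs, one_div, inv_mul_eq_div, le_div_iff₀ hs0, hy]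
      calc C0 * s ^ t * s = C0 * s ^ (1 + t) := by rw [e1]; ring
        _ ≤ m := hm1
    linarith
  have e3 : ((2 * m * d + 1 : ℕ) : ℝ) ≤ (4 * d + 1) * (C0 * s ^ (1 + t)) := by
    push_cast
    have h1 : (2 : ℝ) * m * d ≤ 2 * (2 * C0 * s ^ (1 + t)) * d := by
      have : (0 : ℝ) ≤ d := Nat.cast_nonneg _
      nlinarith
    nlinarith
  have e4 : (C0 * s ^ (1 + t)) ^ q * s ≤ y ^ (q + p) := by
    rw [mul_pow, pow_add, ← Real.rpow_natCast (s ^ (1 + t)) q, ← Real.rpow_mul hs0.le, mul_assoc]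
    apply mul_le_mul
    · exact pow_le_pow_left₀ (by linarith) hy1 _
    · have h1 : s ^ ((1 + t) * q) * s = s ^ ((1 + t) * q + 1) := by
        rw [Real.rpow_add hs0, Real.rpow_one]
      rw [h1]
      calc s ^ ((1 + t) * (q : ℝ) + 1) ≤ s ^ ((p : ℝ) * t) := Real.rpow_le_rpow_of_exponent_le hs1 hp
        _ = (s ^ t) ^ p := by rw [mul_comm, Real.rpow_mul hs0.le, Real.rpow_natCast]
        _ ≤ y ^ p := pow_le_pow_left₀ (by positivity) hys _
    · positivity
    · positivity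
  have h5 := hy0 y (hCy.trans hy1)
  have h6 : (2 : ℝ) ^ (-(δ * m / 2)) ≤ (2 : ℝ) ^ (-(y / 2)) :=
    Real.rpow_le_rpow_of_exponent_le (by norm_num) (by linarith)
  rw [← hq]
  have h7 : ((2 * m * d + 1 : ℕ) : ℝ) ^ q * (2 : ℝ) ^ (-(δ * m / 2)) * (2 * s) < 1 := by
    calc ((2 * m * d + 1 : ℕ) : ℝ) ^ q * (2 : ℝ) ^ (-(δ * m / 2)) * (2 * s) ≤
        ((4 * d + 1) * (C0 * s ^ (1 + t))) ^ q * (2 : ℝ) ^ (-(y / 2)) * (2 * s) := by
          apply mul_le_mul_of_nonneg_right _ (by positivity)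
          apply mul_le_mul _ h6 (by positivity) (by positivity)
          exact pow_le_pow_left₀ (by positivity) e3 _
      _ = 2 * (4 * d + 1 : ℝ) ^ q * ((C0 * s ^ (1 + t)) ^ q * s) * (2 : ℝ) ^ (-(y / 2)) := by
          rw [mul_pow (4 * (d : ℝ) + 1)]
          ring
      _ ≤ 2 * (4 * d + 1 : ℝ) ^ q * y ^ (q + p) * (2 : ℝ) ^ (-(y / 2)) := by
          apply mul_le_mul_of_nonneg_right _ (by positivity)
          apply mul_le_mul_of_nonneg_left e4 (by positivity)
      _ < 1 := h5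
  rw [hδs] at h7 ⊢
  rw [div_div, lt_div_iff₀ (by positivity), mul_comm s 2]
  exact h7

end Pool.Agent.NH83.VN
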